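import Mathlib
import Pool.Agent.H374R2.BealFour

/-!
Descent for `c (a u ^ x + b v ^ y) = w ^ q` with `S`-units `a`, `b`, `c`, where the pair `(u, v)`
satisfies a power residue condition.
-/

set_option autoImplicit false

namespace Pool.Agent.H755R5

open Pool.Agent.H374R2

/-- Power residue condition on the pair `(u, v)` at `q`, with coefficients composed of primes
of `S`. -/
def GoodS (q : ℕ) (S : Finset ℕ) (u v : ℕ) : Prop :=
  ∀ (e : ℕ → ℕ) (y : ℕ), (∀ r : ℕ, r.Prime → r ∣ u → r ∉ S →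
    ∃ t : ZMod r, t ^ q = (∏ ℓ ∈ S, (ℓ : ZMod r) ^ e ℓ) * (v : ZMod r) ^ y) →
    q ∣ y ∧ ∀ ℓ ∈ S, q ∣ e ℓ

/-- nonzero integers all of whose prime divisors belong to `S` -/
def IsSU (S : Finset ℕ) (a : ℤ) : Prop := a ≠ 0 ∧ ∀ ℓ : ℕ, ℓ.Prime → (ℓ : ℤ) ∣ a → ℓ ∈ S

theorem goodS_ne_one {q : ℕ} (hq : q.Prime) {S : Finset ℕ} {v : ℕ} : ¬ GoodS q S 1 v := by
  intro h
  have := (h (fun _ => 0) 1 (fun r hr h1 _ => absurd (Nat.dvd_one.mp h1) hr.one_lt.ne')).1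
  exact hq.one_lt.ne' (Nat.dvd_one.mp this)

theorem IsSU.natAbs_eq {S : Finset ℕ} (hS : ∀ ℓ ∈ S, ℓ.Prime) {a : ℤ} (ha : IsSU S a) :
    a.natAbs = ∏ ℓ ∈ S, ℓ ^ a.natAbs.factorization ℓ := by
  have h0 : a.natAbs ≠ 0 := Int.natAbs_ne_zero.mpr ha.1
  have hsub : a.natAbs.primeFactors ⊆ S := by
    intro p hp
    have hp' := Nat.mem_primeFactors.mp hp
    exact ha.2 p hp'.1 (Int.natCast_dvd.mpr hp'.2.1)
  conv_lhs => rw [← Nat.factorization_prod_pow_eq_self h0]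
  rw [Finsupp.prod, Nat.support_factorization]
  apply Finset.prod_subset hsub
  intro p _ hp
  rw [← Nat.support_factorization, Finsupp.notMem_support_iff] at hp
  rw [hp, pow_zero]

theorem IsSU.mul {S : Finset ℕ} {a b : ℤ} (ha : IsSU S a) (hb : IsSU S b) : IsSU S (a * b) := by
  refine ⟨mul_ne_zero ha.1 hb.1, fun ℓ hℓ h => ?_⟩
  rcases (Nat.prime_iff_prime_int.mp hℓ).dvd_or_dvd h with h | h
  · exact ha.2 ℓ hℓ h
  · exact hb.2 ℓ hℓ h

/-- an `S`-unit with all exponents divisible by the odd `q` is a `q`-th power -/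
theorem IsSU.eq_pow {S : Finset ℕ} (hS : ∀ ℓ ∈ S, ℓ.Prime) {q : ℕ} (hq : Odd q) {a : ℤ}
    (ha : IsSU S a) (h : ∀ ℓ ∈ S, q ∣ a.natAbs.factorization ℓ) :
    ∃ a₁ : ℤ, IsSU S a₁ ∧ a = a₁ ^ q := by
  have h1 : a.natAbs = (∏ ℓ ∈ S, ℓ ^ (a.natAbs.factorization ℓ / q)) ^ q := by
    rw [← Finset.prod_pow]
    conv_lhs => rw [ha.natAbs_eq hS]
    apply Finset.prod_congr rfl
    intro ℓ hℓ
    rw [← pow_mul, Nat.div_mul_cancel (h ℓ hℓ)]
  set n : ℕ := ∏ ℓ ∈ S, ℓ ^ (a.natAbs.factorization ℓ / q) with hn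
  have hq0 : q ≠ 0 := by rintro rfl; simp at hq
  have key : ∃ a₁ : ℤ, a = a₁ ^ q := by
    rcases Int.natAbs_eq a with h2 | h2
    · exact ⟨n, by rw [h2, h1]; push_cast; rfl⟩
    · refine ⟨-n, ?_⟩
      rw [h2, h1, hq.neg_pow]
      push_cast
      rfl
  obtain ⟨a₁, ha₁⟩ := key
  refine ⟨a₁, ⟨?_, fun ℓ hℓ hd => ha.2 ℓ hℓ ?_⟩, ha₁⟩
  · rintro rfl
    rw [zero_pow hq0] at ha₁
    exact ha.1 ha₁
  · rw [ha₁]
    exact dvd_pow hd hq0

/-- the residue condition applied to an equation -/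
theorem res_of_eq {q : ℕ} (hodd : Odd q) {S : Finset ℕ} (hS : ∀ ℓ ∈ S, ℓ.Prime) {u v : ℕ}
    (h1 : GoodS q S u v) {x y : ℕ} {a b c w : ℤ} (hx : 0 < x) (hb : IsSU S b)
    (hc : IsSU S c) (h : c * (a * (u : ℤ) ^ x + b * (v : ℤ) ^ y) = w ^ q) :
    q ∣ y ∧ ∀ ℓ ∈ S, q ∣ (c * b).natAbs.factorization ℓ := by
  apply h1
  intro r hr hru _
  have hcb := hc.mul hb
  have hru' : ((u : ℤ) : ZMod r) = 0 := by
    rw [Int.cast_natCast]; exact (ZMod.natCast_eq_zero_iff u r).mpr hru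
  have h3 := congrArg (fun z : ℤ => (z : ZMod r)) h
  simp only [Int.cast_mul, Int.cast_pow, Int.cast_add] at h3
  rw [hru', zero_pow hx.ne', mul_zero, zero_add, Int.cast_natCast] at h3
  have h4 : (((c * b).natAbs : ℕ) : ZMod r) = ∏ ℓ ∈ S, (ℓ : ZMod r) ^ (c * b).natAbs.factorization ℓ := by
    have := congrArg (fun z : ℕ => (z : ZMod r)) (hcb.natAbs_eq hS)
    simpa using this
  rw [← h4]
  rcases Int.natAbs_eq (c * b) with h5 | h5
  · refine ⟨(w : ZMod r), ?_⟩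
    have h6 := congrArg (fun z : ℤ => (z : ZMod r)) h5
    simp only [Int.cast_mul, Int.cast_natCast] at h6
    rw [← h6, ← h3]
    ring
  · refine ⟨-(w : ZMod r), ?_⟩
    have h6 := congrArg (fun z : ℤ => (z : ZMod r)) h5
    simp only [Int.cast_mul, Int.cast_neg, Int.cast_natCast] at h6
    rw [hodd.neg_pow, ← h3]
    linear_combination (-(v : ZMod r) ^ y) * h6

/-- The descent: a pair satisfying both residue conditions admits no solution at all. -/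
theorem no_solS {q : ℕ} (hq : q.Prime) (hq2 : q ≠ 2) {S : Finset ℕ} (hS : ∀ ℓ ∈ S, ℓ.Prime)
    (hqS : q ∈ S) {u v : ℕ} (h1 : GoodS q S u v) (h2 : GoodS q S v u) :
    ∀ (x y : ℕ) (a b c w : ℤ), 0 < x → 0 < y → IsSU S a → IsSU S b → IsSU S c →
      IsCoprime (a * (u : ℤ) ^ x) (b * (v : ℤ) ^ y) →
      c * (a * (u : ℤ) ^ x + b * (v : ℤ) ^ y) = w ^ q → False := by
  have hodd : Odd q := hq.odd_of_ne_two hq2
  have hu1 : u ≠ 1 := by rintro rfl; exact goodS_ne_one hq h1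
  intro x
  induction x using Nat.strong_induction_on with
  | _ x ih =>
    intro y a b c w hx hy ha hb hc hco h
    obtain ⟨hqy, hvb⟩ := res_of_eq hodd hS h1 hx hb hc h
    obtain ⟨hqx, hva⟩ := res_of_eq (x := y) (y := x) (a := b) (b := a) hodd hS h2 hy ha hc
      (by rw [← h]; ring)
    -- valuations
    have hval : ∀ ℓ ∈ S, q ∣ a.natAbs.factorization ℓ ∧ q ∣ b.natAbs.factorization ℓ ∧
        q ∣ c.natAbs.factorization ℓ := by
      intro ℓ hℓ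
      have hp := hS ℓ hℓ
      have e1 := hvb ℓ hℓ
      have e2 := hva ℓ hℓ
      have hc0 : c.natAbs ≠ 0 := Int.natAbs_ne_zero.mpr hc.1
      have hb0 : b.natAbs ≠ 0 := Int.natAbs_ne_zero.mpr hb.1
      have ha0 : a.natAbs ≠ 0 := Int.natAbs_ne_zero.mpr ha.1
      rw [Int.natAbs_mul, Nat.factorization_mul hc0 hb0, Finsupp.coe_add, Pi.add_apply] at e1
      rw [Int.natAbs_mul, Nat.factorization_mul hc0 ha0, Finsupp.coe_add, Pi.add_apply] at e2
      have e3 : a.natAbs.factorization ℓ = 0 ∨ b.natAbs.factorization ℓ = 0 := by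
        by_contra hcon
        push Not at hcon
        have f1 : ℓ ∣ a.natAbs := (hp.dvd_iff_one_le_factorization ha0).mpr (by omega)
        have f2 : ℓ ∣ b.natAbs := (hp.dvd_iff_one_le_factorization hb0).mpr (by omega)
        have f3 : (ℓ : ℤ) ∣ a * (u : ℤ) ^ x := (Int.natCast_dvd.mpr f1).mul_right _
        have f4 : (ℓ : ℤ) ∣ b * (v : ℤ) ^ y := (Int.natCast_dvd.mpr f2).mul_right _
        have f5 := hco.isUnit_of_dvd' f3 f4
        have f6 := Int.isUnit_iff_natAbs_eq.mp f5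
        rw [Int.natAbs_natCast] at f6
        exact hp.one_lt.ne' f6
      rcases e3 with e3 | e3
      · rw [e3, add_zero] at e2
        exact ⟨e3 ▸ dvd_zero q, (Nat.dvd_add_right e2).mp e1, e2⟩
      · rw [e3, add_zero] at e1
        exact ⟨(Nat.dvd_add_right e1).mp e2, e3 ▸ dvd_zero q, e1⟩
    obtain ⟨a₁, ha₁, rfl⟩ := ha.eq_pow hS hodd (fun ℓ hℓ => (hval ℓ hℓ).1)
    obtain ⟨b₁, hb₁, rfl⟩ := hb.eq_pow hS hodd (fun ℓ hℓ => (hval ℓ hℓ).2.1)
    obtain ⟨c₁, hc₁, rfl⟩ := hc.eq_pow hS hodd (fun ℓ hℓ => (hval ℓ hℓ).2.2)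
    obtain ⟨x', rfl⟩ := hqx
    obtain ⟨y', rfl⟩ := hqy
    have hx' : 0 < x' := by
      rcases Nat.eq_zero_or_pos x' with h0 | h0
      · subst h0; simp at hx
      · exact h0
    have hy' : 0 < y' := by
      rcases Nat.eq_zero_or_pos y' with h0 | h0
      · subst h0; simp at hy
      · exact h0
    have hX : a₁ ^ q * (u : ℤ) ^ (q * x') = (a₁ * (u : ℤ) ^ x') ^ q := by
      rw [mul_pow, ← pow_mul, mul_comm x' q]
    have hY : b₁ ^ q * (v : ℤ) ^ (q * y') = (b₁ * (v : ℤ) ^ y') ^ q := by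
      rw [mul_pow, ← pow_mul, mul_comm y' q]
    rw [hX, hY] at h hco
    have hcop : IsCoprime (a₁ * (u : ℤ) ^ x') (b₁ * (v : ℤ) ^ y') :=
      (IsCoprime.pow_iff hq.pos hq.pos).mp hco
    have hw : c₁ ∣ w := by
      have h5 : c₁ ^ q ∣ w ^ q := Dvd.intro _ h
      exact (Int.pow_dvd_pow_iff hq.ne_zero).mp h5
    obtain ⟨w₁, rfl⟩ := hw
    have h6 : (q : ℤ) ^ 0 * ((a₁ * (u : ℤ) ^ x') ^ q + (b₁ * (v : ℤ) ^ y') ^ q) = w₁ ^ q := by
      rw [mul_pow c₁ w₁ q] at h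
      have h7 := mul_left_cancel₀ (pow_ne_zero q hc₁.1) h
      rw [pow_zero, one_mul]
      exact h7
    have h0 : a₁ * (u : ℤ) ^ x' + b₁ * (v : ℤ) ^ y' ≠ 0 := by
      intro h3
      have h4 : (b₁ * (v : ℤ) ^ y') = - (a₁ * (u : ℤ) ^ x') := by linear_combination h3
      rw [h4] at hcop
      have h5 : IsUnit (a₁ * (u : ℤ) ^ x') := by
        have := hcop.neg_right
        rw [neg_neg] at this
        exact isCoprime_self.mp this
      have h5' : IsUnit ((u : ℤ) ^ x') := isUnit_of_mul_isUnit_right h5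
      have h6 : IsUnit (u : ℤ) := (isUnit_pow_iff hx'.ne').mp h5'
      apply hu1
      have := Int.isUnit_iff_natAbs_eq.mp h6
      simpa using this
    obtain ⟨k', w', hw'⟩ := Beal.factor_step hq hq2 hcop h0 h6
    have hlt : x' < q * x' := by
      have := hq.one_lt
      nlinarith
    have hqk : IsSU S ((q : ℤ) ^ k') := by
      refine ⟨pow_ne_zero _ (by exact_mod_cast hq.ne_zero), fun ℓ hℓ hd => ?_⟩
      have h7 := (Nat.prime_iff_prime_int.mp hℓ).dvd_of_dvd_pow hd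
      have h8 : ℓ ∣ q := by exact_mod_cast h7
      rw [(Nat.prime_dvd_prime_iff_eq hℓ hq).mp h8]
      exact hqS
    exact ih x' hlt y' a₁ b₁ ((q : ℤ) ^ k') w' hx' hy' ha₁ hb₁ hqk hcop hw'

end Pool.Agent.H755R5
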