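import Mathlib
import Pool.Agent.H755R5.F
import Pool.Agent.H755R5.Kum.Stmts

/-!
Almost all pairs satisfy the residue condition `GoodS`.
-/

set_option autoImplicit false

namespace Pool.Agent.H755R5

open Finset Pool.Agent.H374R2 Pool.Agent.H374R2.Beal
open Pool.Agent.H755R5.Kum (NonRes)

theorem uniformNull_empty : UniformNull ∅ := by
  intro ε hε
  refine ⟨0, fun X Y _ _ a b => ?_⟩
  rw [Set.empty_inter, Set.ncard_empty]
  push_cast
  positivity

theorem uniformNull_biUnion {ι : Type*} (J : Finset ι) (E : ι → Set (ℕ × ℕ))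
    (h : ∀ j ∈ J, UniformNull (E j)) : UniformNull {p | ∃ j ∈ J, p ∈ E j} := by
  classical
  induction J using Finset.induction_on with
  | empty =>
    refine uniformNull_empty.mono ?_
    rintro p ⟨j, hj, _⟩
    simp at hj
  | insert a J ha ih =>
    refine ((h a (Finset.mem_insert_self a J)).union
      (ih (fun j hj => h j (Finset.mem_insert_of_mem hj)))).mono ?_
    rintro p ⟨j, hj, hp⟩
    rcases Finset.mem_insert.mp hj with rfl | hj
    · exact Or.inl hp
    · exact Or.inr ⟨j, hj, hp⟩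

/-- removing finitely many elements keeps divergence -/
theorem not_summable_diff {R : Set ℕ} (S : Finset ℕ)
    (h : ¬ Summable (fun r : ℕ => R.indicator (fun n : ℕ => (1 : ℝ) / n) r)) :
    ¬ Summable (fun r : ℕ => (R \ (S : Set ℕ)).indicator (fun n : ℕ => (1 : ℝ) / n) r) := by
  classical
  intro hs
  apply h
  have hf : Summable (fun r : ℕ => (R ∩ (S : Set ℕ)).indicator (fun n : ℕ => (1 : ℝ) / n) r) := by
    apply summable_of_hasFiniteSupport
    refine (Finset.finite_toSet S).subset ?_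
    intro r hr
    have : r ∈ R ∩ (S : Set ℕ) := by
      by_contra hn
      exact hr (Set.indicator_of_notMem hn _)
    exact this.2
  refine (hs.add hf).congr ?_
  intro r
  simp only [Set.indicator_apply, Set.mem_diff, Set.mem_inter_iff]
  by_cases h1 : r ∈ R <;> by_cases h2 : r ∈ (S : Set ℕ) <;> simp [h1, h2]

theorem prod_not_pow {q : ℕ} {S : Finset ℕ} (hS : ∀ ℓ ∈ S, ℓ.Prime) {e : ℕ → ℕ}
    (he : ∀ ℓ ∈ S, e ℓ < q) {ℓ₀ : ℕ} (hℓ₀ : ℓ₀ ∈ S) (h0 : e ℓ₀ ≠ 0) :
    ¬ ∃ t : ℕ, t ^ q = ∏ ℓ ∈ S, ℓ ^ e ℓ := by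
  classical
  rintro ⟨t, ht⟩
  have h1 : (∏ ℓ ∈ S, ℓ ^ e ℓ).factorization ℓ₀ = e ℓ₀ := by
    rw [Nat.factorization_prod (fun ℓ hℓ => pow_ne_zero _ (hS ℓ hℓ).ne_zero),
      Finsupp.finsetSum_apply, Finset.sum_eq_single ℓ₀]
    · rw [(hS ℓ₀ hℓ₀).factorization_pow, Finsupp.single_eq_same]
    · intro ℓ hℓ hne
      rw [(hS ℓ hℓ).factorization_pow, Finsupp.single_apply, if_neg hne]
    · intro hn
      exact absurd hℓ₀ hn
  rw [← ht, Nat.factorization_pow, Finsupp.coe_smul, Pi.smul_apply, smul_eq_mul] at h1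
  have h2 := he ℓ₀ hℓ₀
  rcases Nat.eq_zero_or_pos (t.factorization ℓ₀) with h3 | h3
  · rw [h3, mul_zero] at h1; omega
  · have : q * 1 ≤ q * t.factorization ℓ₀ := Nat.mul_le_mul_left _ h3
    omega

/-- reduction of the exponents modulo `q` -/
theorem red_mod {q r : ℕ} (hr : r.Prime) {S : Finset ℕ} (hS : ∀ ℓ ∈ S, ℓ.Prime) (hrS : r ∉ S)
    {v : ZMod r} (hv : v ≠ 0) {e : ℕ → ℕ} {y : ℕ}
    (h : ∃ t : ZMod r, t ^ q = (∏ ℓ ∈ S, (ℓ : ZMod r) ^ e ℓ) * v ^ y) :
    ∃ t : ZMod r, t ^ q = (∏ ℓ ∈ S, (ℓ : ZMod r) ^ (e ℓ % q)) * v ^ (y % q) := by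
  have : Fact r.Prime := ⟨hr⟩
  obtain ⟨t, ht⟩ := h
  have hne : ∀ ℓ ∈ S, (ℓ : ZMod r) ≠ 0 := by
    intro ℓ hℓ h0
    rw [ZMod.natCast_eq_zero_iff] at h0
    have := (Nat.prime_dvd_prime_iff_eq hr (hS ℓ hℓ)).mp h0
    exact hrS (this ▸ hℓ)
  set D : ZMod r := (∏ ℓ ∈ S, (ℓ : ZMod r) ^ (e ℓ / q)) * v ^ (y / q) with hD
  have hD0 : D ≠ 0 := by
    rw [hD]
    refine mul_ne_zero (Finset.prod_ne_zero_iff.mpr fun ℓ hℓ => pow_ne_zero _ (hne ℓ hℓ))
      (pow_ne_zero _ hv)
  refine ⟨t / D, ?_⟩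
  rw [div_pow, ht, div_eq_iff (pow_ne_zero _ hD0), hD, mul_pow, ← Finset.prod_pow]
  have e1 : v ^ y = v ^ (y % q) * (v ^ (y / q)) ^ q := by
    rw [← pow_mul, ← pow_add]
    congr 1
    rw [mul_comm]
    exact (Nat.mod_add_div y q).symm
  have e2 : (∏ ℓ ∈ S, (ℓ : ZMod r) ^ e ℓ) = (∏ ℓ ∈ S, (ℓ : ZMod r) ^ (e ℓ % q)) *
      ∏ ℓ ∈ S, ((ℓ : ZMod r) ^ (e ℓ / q)) ^ q := by
    rw [← Finset.prod_mul_distrib]
    apply Finset.prod_congr rfl
    intro ℓ _
    rw [← pow_mul, ← pow_add]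
    congr 1
    rw [mul_comm]
    exact (Nat.mod_add_div _ q).symm
  rw [e1, e2]
  ring

/-- For a prime `q` and a finite set `S` of primes, the pairs that are not `GoodS` are uniformly
null. -/
theorem uniformNull_not_goodS {q : ℕ} (hq : q.Prime) {S : Finset ℕ} (hS : ∀ ℓ ∈ S, ℓ.Prime)
    (hK : ∀ η : ℕ, 0 < η → (¬ ∃ t : ℕ, t ^ q = η) →
      ¬ Summable (fun r : ℕ => (NonRes q η).indicator (fun n : ℕ => (1 : ℝ) / n) r)) :
    UniformNull {p | ¬ GoodS q S p.1 p.2} := by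
  classical
  have hc : (0 : ℝ) < 1 / (2 * q) := by
    have : (0 : ℝ) < q := by exact_mod_cast hq.pos
    positivity
  -- the classes of exponents
  set J : Finset ((S → ℕ) × ℕ) := (Fintype.piFinset (fun _ : S => range q) ×ˢ range q).filter
    (fun j => ¬ (j.2 = 0 ∧ ∀ ℓ, j.1 ℓ = 0)) with hJ
  let ext : (S → ℕ) → ℕ → ℕ := fun f ℓ => if h : ℓ ∈ S then f ⟨ℓ, h⟩ else 0
  let E : (S → ℕ) × ℕ → Set (ℕ × ℕ) := fun j =>
    {p | ∀ r : ℕ, r.Prime → r ∣ p.1 → r ∉ S → (p.2 : ZMod r) ≠ 0 →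
      ∃ t : ZMod r, t ^ q = (∏ ℓ ∈ S, (ℓ : ZMod r) ^ (ext j.1 ℓ)) * (p.2 : ZMod r) ^ j.2}
  refine (uniformNull_biUnion J E ?_).mono ?_
  · rintro ⟨f, y⟩ hj
    rw [hJ, Finset.mem_filter, Finset.mem_product, Fintype.mem_piFinset, Finset.mem_range] at hj
    obtain ⟨⟨hf, hy⟩, hne⟩ := hj
    simp only at hf hy hne
    have hext : ∀ ℓ ∈ S, ext f ℓ < q := by
      intro ℓ hℓ
      simp only [ext, dif_pos hℓ]
      exact Finset.mem_range.mp (hf ⟨ℓ, hℓ⟩)
    set η : ℕ := ∏ ℓ ∈ S, ℓ ^ ext f ℓ with hη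
    have hη0 : 0 < η := Finset.prod_pos fun ℓ hℓ => pow_pos (hS ℓ hℓ).pos _
    have hηcast : ∀ r : ℕ, (η : ZMod r) = ∏ ℓ ∈ S, (ℓ : ZMod r) ^ ext f ℓ := by
      intro r
      rw [hη]
      push_cast
      rfl
    rcases Nat.eq_zero_or_pos y with hy0 | hy0
    · -- the class of `η` alone
      have hex : ∃ ℓ₀, ∃ hℓ₀ : ℓ₀ ∈ S, f ⟨ℓ₀, hℓ₀⟩ ≠ 0 := by
        by_contra hcon
        push Not at hcon
        exact hne ⟨hy0, fun ℓ => hcon ℓ ℓ.2⟩
      obtain ⟨ℓ₀, hℓ₀, hf0⟩ := hex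
      have hη1 : ¬ ∃ t : ℕ, t ^ q = η := by
        apply prod_not_pow hS hext hℓ₀
        simp only [ext, dif_pos hℓ₀]
        exact hf0
      have hdiv := not_summable_diff S (hK η hη0 hη1)
      have hA := uniformNull_core (NonRes q η \ (S : Set ℕ)) (fun r hr => hr.1.1.1) hdiv
        (fun r => {v : ZMod r | v ≠ 0}) (1 / (2 * q)) hc (by
          intro r hr
          have h1 := unitPow_lower hq.two_le hr.1.1.1 hr.1.1.2
          have : Fact r.Prime := ⟨hr.1.1.1⟩
          have h2 : (UnitPow q r).ncard ≤ {v : ZMod r | v ≠ 0}.ncard :=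
            Set.ncard_le_ncard (fun b hb => hb.1) (Set.toFinite _)
          have h3 : ((UnitPow q r).ncard : ℝ) ≤ {v : ZMod r | v ≠ 0}.ncard := by exact_mod_cast h2
          linarith)
      refine hA.mono ?_
      rintro ⟨u, v⟩ hp r hr ⟨hru, hrv⟩
      simp only at hru hrv
      have h1 := hp r hr.1.1.1 hru (by exact_mod_cast hr.2) hrv
      simp only [hy0, pow_zero, mul_one] at h1
      rw [← hηcast r] at h1
      exact hr.1.2 h1
    · -- the classes with a power of `v`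
      have hqy : ¬ q ∣ y := fun h => by
        have := Nat.le_of_dvd hy0 h
        omega
      have hdiv := not_summable_diff S (primes_one_div q hq.pos)
      have hA := uniformNull_core ({r : ℕ | r.Prime ∧ q ∣ r - 1} \ (S : Set ℕ))
        (fun r hr => hr.1.1) hdiv
        (fun r => {v : ZMod r | v ≠ 0 ∧ ¬ ∃ t : ZMod r, t ^ q = (η : ZMod r) * v ^ y})
        (1 / (2 * q)) hc (by
          rintro r ⟨⟨hr, hqr⟩, hrS⟩
          have : Fact r.Prime := ⟨hr⟩
          by_cases hres : ∃ s : ZMod r, s ^ q = (η : ZMod r)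
          · have h1 := nonPow_lower hq.two_le hr hqr
            have h2 : (NonPow q r).ncard ≤ {v : ZMod r | v ≠ 0 ∧
                ¬ ∃ t : ZMod r, t ^ q = (η : ZMod r) * v ^ y}.ncard := by
              refine Set.ncard_le_ncard ?_ (Set.toFinite _)
              intro b hb
              refine ⟨?_, ?_⟩
              · rintro rfl
                exact hb ⟨0, zero_pow hq.ne_zero⟩
              · rintro ⟨t, ht⟩
                obtain ⟨s, hs⟩ := hres
                have hη0' : (η : ZMod r) ≠ 0 := by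
                  rw [hηcast r]
                  refine Finset.prod_ne_zero_iff.mpr fun ℓ hℓ => pow_ne_zero _ ?_
                  intro h0
                  rw [ZMod.natCast_eq_zero_iff] at h0
                  have := (Nat.prime_dvd_prime_iff_eq hr (hS ℓ hℓ)).mp h0
                  exact hrS (this ▸ hℓ)
                have hs0 : s ≠ 0 := by
                  rintro rfl
                  rw [zero_pow hq.ne_zero] at hs
                  exact hη0' hs.symm
                apply hqy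
                refine dvd_of_pow_isPow hq hb (s := t / s) ?_
                rw [div_pow, ht, hs]
                field_simp
            have h3 : ((NonPow q r).ncard : ℝ) ≤ {v : ZMod r | v ≠ 0 ∧
                ¬ ∃ t : ZMod r, t ^ q = (η : ZMod r) * v ^ y}.ncard := by exact_mod_cast h2
            linarith
          · have h1 := unitPow_lower hq.two_le hr hqr
            have h2 : (UnitPow q r).ncard ≤ {v : ZMod r | v ≠ 0 ∧
                ¬ ∃ t : ZMod r, t ^ q = (η : ZMod r) * v ^ y}.ncard := by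
              refine Set.ncard_le_ncard ?_ (Set.toFinite _)
              rintro b ⟨hb0, s, hs⟩
              refine ⟨hb0, ?_⟩
              rintro ⟨t, ht⟩
              have hs0 : s ≠ 0 := by
                rintro rfl
                rw [zero_pow hq.ne_zero] at hs
                exact hb0 hs.symm
              apply hres
              refine ⟨t / s ^ y, ?_⟩
              rw [div_pow, ht, ← pow_mul, mul_comm y q, pow_mul, hs]
              have : b ^ y ≠ 0 := pow_ne_zero _ hb0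
              field_simp
            have h3 : ((UnitPow q r).ncard : ℝ) ≤ {v : ZMod r | v ≠ 0 ∧
                ¬ ∃ t : ZMod r, t ^ q = (η : ZMod r) * v ^ y}.ncard := by exact_mod_cast h2
            linarith)
      refine hA.mono ?_
      rintro ⟨u, v⟩ hp r ⟨⟨hr, hqr⟩, hrS⟩ ⟨hru, hrv0, hrv⟩
      simp only at hru hrv hrv0
      apply hrv
      have h1 := hp r hr hru (by exact_mod_cast hrS) hrv0
      simp only at h1
      rw [← hηcast r] at h1
      exact h1
  · rintro ⟨u, v⟩ hp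
    have hp' : ¬ GoodS q S u v := hp
    unfold GoodS at hp'
    push Not at hp'
    obtain ⟨e, y, hall, hfail⟩ := hp'
    refine ⟨(fun ℓ => e ℓ % q, y % q), ?_, ?_⟩
    · rw [hJ, Finset.mem_filter, Finset.mem_product, Fintype.mem_piFinset]
      refine ⟨⟨fun ℓ => Finset.mem_range.mpr (Nat.mod_lt _ hq.pos),
        Finset.mem_range.mpr (Nat.mod_lt _ hq.pos)⟩, ?_⟩
      rintro ⟨h1, h2⟩
      simp only at h1 h2
      obtain ⟨ℓ, hℓ, hnd⟩ := hfail (Nat.dvd_of_mod_eq_zero h1)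
      exact hnd (Nat.dvd_of_mod_eq_zero (h2 ⟨ℓ, hℓ⟩))
    · intro r hr hru hrS hv0
      have h1 := red_mod hr hS hrS hv0 (hall r hr hru hrS)
      have h2 : (∏ ℓ ∈ S, (ℓ : ZMod r) ^ (ext (fun ℓ : S => e ℓ % q) ℓ)) =
          ∏ ℓ ∈ S, (ℓ : ZMod r) ^ (e ℓ % q) := by
        apply Finset.prod_congr rfl
        intro ℓ hℓ
        simp only [ext, dif_pos hℓ]
      rw [h2]
      exact h1

end Pool.Agent.H755R5
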