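import Mathlib
import Pool.Agent.H755R5.E

/-!
Assembly: generalised Fermat equations with `S`-unit coefficients for almost all pairs of bases.
-/

set_option autoImplicit false

namespace Pool.Agent.H755R5

open Finset Pool.Agent.H374R2 Pool.Agent.H374R2.Beal
open Pool.Agent.H755R5.Kum (NonRes)

theorem int_prime_dvd {ℓ : ℕ} (hℓ : ℓ.Prime) {m n : ℤ} {k : ℕ} (h : (ℓ : ℤ) ∣ m * n ^ k) :
    (ℓ : ℤ) ∣ m ∨ (ℓ : ℤ) ∣ n := by
  have hp := Nat.prime_iff_prime_int.mp hℓ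
  rcases hp.dvd_or_dvd h with h | h
  · exact Or.inl h
  · exact Or.inr (hp.dvd_of_dvd_pow h)

theorem gcd_one {a b c x y z : ℤ} {p q r : ℕ}
    (h : Int.gcd ((Int.gcd (a * x) (b * y) : ℕ) : ℤ) (c * z) = 1)
    (heq : a * x ^ p + b * y ^ q = c * z ^ r) :
    IsCoprime (a * x ^ p) (b * y ^ q) ∧ IsCoprime (a * x ^ p) (c * z ^ r) ∧
      IsCoprime (b * y ^ q) (c * z ^ r) := by
  have key : ∀ ℓ : ℕ, ℓ.Prime → (ℓ : ℤ) ∣ a * x ^ p → (ℓ : ℤ) ∣ b * y ^ q →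
      (ℓ : ℤ) ∣ c * z ^ r → False := by
    intro ℓ hℓ h1 h2 h3
    have e1 : (ℓ : ℤ) ∣ a * x := by
      rcases int_prime_dvd hℓ h1 with h | h
      · exact h.mul_right x
      · exact h.mul_left a
    have e2 : (ℓ : ℤ) ∣ b * y := by
      rcases int_prime_dvd hℓ h2 with h | h
      · exact h.mul_right y
      · exact h.mul_left b
    have e3 : (ℓ : ℤ) ∣ c * z := by
      rcases int_prime_dvd hℓ h3 with h | h
      · exact h.mul_right z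
      · exact h.mul_left c
    have e4 : (ℓ : ℤ) ∣ ((Int.gcd (a * x) (b * y) : ℕ) : ℤ) := Int.dvd_coe_gcd e1 e2
    have e5 := Int.dvd_coe_gcd e4 e3
    rw [h] at e5
    have e6 : ℓ ∣ 1 := by exact_mod_cast e5
    exact hℓ.one_lt.ne' (Nat.dvd_one.mp e6)
  refine ⟨?_, ?_, ?_⟩ <;> rw [Int.isCoprime_iff_gcd_eq_one]
  · by_contra hn
    obtain ⟨ℓ, hℓ, hd⟩ := Nat.exists_prime_and_dvd hn
    have h1 : (ℓ : ℤ) ∣ a * x ^ p := (Int.natCast_dvd_natCast.mpr hd).trans (Int.gcd_dvd_left _ _)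
    have h2 : (ℓ : ℤ) ∣ b * y ^ q := (Int.natCast_dvd_natCast.mpr hd).trans (Int.gcd_dvd_right _ _)
    exact key ℓ hℓ h1 h2 (heq ▸ dvd_add h1 h2)
  · by_contra hn
    obtain ⟨ℓ, hℓ, hd⟩ := Nat.exists_prime_and_dvd hn
    have h1 : (ℓ : ℤ) ∣ a * x ^ p := (Int.natCast_dvd_natCast.mpr hd).trans (Int.gcd_dvd_left _ _)
    have h3 : (ℓ : ℤ) ∣ c * z ^ r := (Int.natCast_dvd_natCast.mpr hd).trans (Int.gcd_dvd_right _ _)
    have h2 : (ℓ : ℤ) ∣ b * y ^ q := by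
      have : b * y ^ q = c * z ^ r - a * x ^ p := by rw [← heq]; ring
      rw [this]
      exact dvd_sub h3 h1
    exact key ℓ hℓ h1 h2 h3
  · by_contra hn
    obtain ⟨ℓ, hℓ, hd⟩ := Nat.exists_prime_and_dvd hn
    have h2 : (ℓ : ℤ) ∣ b * y ^ q := (Int.natCast_dvd_natCast.mpr hd).trans (Int.gcd_dvd_left _ _)
    have h3 : (ℓ : ℤ) ∣ c * z ^ r := (Int.natCast_dvd_natCast.mpr hd).trans (Int.gcd_dvd_right _ _)
    have h1 : (ℓ : ℤ) ∣ a * x ^ p := by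
      have : a * x ^ p = c * z ^ r - b * y ^ q := by rw [← heq]; ring
      rw [this]
      exact dvd_sub h3 h2
    exact key ℓ hℓ h1 h2 h3

theorem isSU_pow {S : Finset ℕ} {a : ℤ} (ha : IsSU S a) (n : ℕ) : IsSU S (a ^ n) :=
  ⟨pow_ne_zero _ ha.1, fun ℓ hℓ h => ha.2 ℓ hℓ ((Nat.prime_iff_prime_int.mp hℓ).dvd_of_dvd_pow h)⟩

theorem isSU_neg {S : Finset ℕ} {a : ℤ} (ha : IsSU S a) : IsSU S (-a) :=
  ⟨neg_ne_zero.mpr ha.1, fun ℓ hℓ h => ha.2 ℓ hℓ ((dvd_neg).mp h)⟩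

theorem isSU_mono {S T : Finset ℕ} (h : ∀ ℓ ∈ S, ℓ.Prime → ℓ ∈ T) {a : ℤ} (ha : IsSU S a) :
    IsSU T a := ⟨ha.1, fun ℓ hℓ hd => h ℓ (ha.2 ℓ hℓ hd) hℓ⟩

/-- signs of the base move to the coefficient -/
theorem sign_move {S : Finset ℕ} {A : ℤ} (hA : IsSU S A) {X : ℤ} {u : ℕ} (hX : X.natAbs = u)
    (p : ℕ) : ∃ A' : ℤ, IsSU S A' ∧ A * X ^ p = A' * (u : ℤ) ^ p := by
  rcases Int.natAbs_eq X with h | h
  · refine ⟨A, hA, ?_⟩
    rw [h, hX]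
  · rw [hX] at h
    rw [h, neg_pow]
    rcases neg_one_pow_eq_or ℤ p with h1 | h1
    · exact ⟨A, hA, by rw [h1]; ring⟩
    · exact ⟨-A, isSU_neg hA, by rw [h1]; ring⟩

theorem noSol {q : ℕ} (hq : q.Prime) (hq2 : q ≠ 2) {S : Finset ℕ} (hS : ∀ ℓ ∈ S, ℓ.Prime)
    (hqS : q ∈ S) {u v : ℕ} (h1 : GoodS q S u v) (h2 : GoodS q S v u) {A B C X Y Z : ℤ}
    {p p' n : ℕ} (hp : 0 < p) (hp' : 0 < p') (hA : IsSU S A) (hB : IsSU S B) (hC : IsSU S C)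
    (hX : X.natAbs = u) (hY : Y.natAbs = v) (hn : q ∣ n)
    (hco : IsCoprime (A * X ^ p) (B * Y ^ p')) (heq : A * X ^ p + B * Y ^ p' = C * Z ^ n) :
    False := by
  obtain ⟨A', hA', e1⟩ := sign_move hA hX p
  obtain ⟨B', hB', e2⟩ := sign_move hB hY p'
  obtain ⟨k, rfl⟩ := hn
  rw [e1, e2] at hco heq
  refine no_solS hq hq2 hS hqS h1 h2 p p' A' B' (C ^ (q - 1)) (C * Z ^ k) hp hp' hA' hB'
    (isSU_pow hC _) hco ?_
  rw [heq, mul_pow, ← pow_mul, mul_comm k q, ← mul_assoc, ← pow_succ]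
  congr 2
  have := hq.pos
  omega

/-- `S`-solutions of `a x ^ p + b y ^ q = c z ^ r` (the condition `1/p + 1/q + 1/r < 1` is not
imposed) -/
def SSol (S : Finset ℕ) (a b c x y z : ℤ) (p q r : ℕ) : Prop :=
  0 < p ∧ 0 < q ∧ 0 < r ∧ a ≠ 0 ∧ b ≠ 0 ∧ c ≠ 0 ∧ x ≠ 0 ∧ y ≠ 0 ∧ z ≠ 0 ∧
    (∀ ℓ : ℕ, ℓ.Prime → (ℓ : ℤ) ∣ a * b * c → ℓ ∈ S) ∧
    Int.gcd ((Int.gcd (a * x) (b * y) : ℕ) : ℤ) (c * z) = 1 ∧
    a * x ^ p + b * y ^ q = c * z ^ r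

/-- `n` is divisible by an odd prime `≤ R` -/
def OddPr (R n : ℕ) : Prop := ∃ ℓ : ℕ, ℓ.Prime ∧ ℓ ≠ 2 ∧ ℓ ≤ R ∧ ℓ ∣ n

/-- the pairs of bases of an `S`-solution whose third exponent is divisible by an odd prime
`≤ R` -/
def ExcS (S : Finset ℕ) (R : ℕ) : Set (ℕ × ℕ) :=
  {w | ∃ (a b c x y z : ℤ) (p q r : ℕ), SSol S a b c x y z p q r ∧
    ((x.natAbs = w.1 ∧ y.natAbs = w.2 ∧ OddPr R r) ∨
     (x.natAbs = w.1 ∧ z.natAbs = w.2 ∧ OddPr R q) ∨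
     (y.natAbs = w.1 ∧ z.natAbs = w.2 ∧ OddPr R p))}

theorem excS_null
    (hK : ∀ q η : ℕ, q.Prime → 0 < η → (¬ ∃ t : ℕ, t ^ q = η) →
      ¬ Summable (fun r : ℕ => (NonRes q η).indicator (fun n : ℕ => (1 : ℝ) / n) r))
    (S : Finset ℕ) (R : ℕ) : UniformNull (ExcS S R) := by
  classical
  set T : ℕ → Finset ℕ := fun q => insert q (S.filter Nat.Prime) with hT
  have hTp : ∀ q : ℕ, q.Prime → ∀ ℓ ∈ T q, ℓ.Prime := by
    intro q hq ℓ hℓ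
    rcases Finset.mem_insert.mp hℓ with rfl | h
    · exact hq
    · exact (Finset.mem_filter.mp h).2
  refine (uniformNull_biUnion ((Finset.range (R + 1)).filter (fun q => q.Prime ∧ q ≠ 2))
    (fun q => {p | ¬ GoodS q (T q) p.1 p.2} ∪ {p | ¬ GoodS q (T q) p.2 p.1}) ?_).mono ?_
  · intro q hq
    obtain ⟨_, hq, _⟩ := Finset.mem_filter.mp hq
    have h1 := uniformNull_not_goodS hq (hTp q hq) (fun η h0 h1 => hK q η hq h0 h1)
    exact h1.union h1.swap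
  · rintro ⟨u, v⟩ ⟨a, b, c, x, y, z, p, q, r,
      ⟨hp, hq, hr, ha, hb, hc, hx, hy, hz, hS, hgcd, heq⟩, hcase⟩
    simp only at hcase
    obtain ⟨g1, g2, g3⟩ := gcd_one hgcd heq
    have hSa : IsSU S a := ⟨ha, fun ℓ hℓ h => hS ℓ hℓ ((h.mul_right b).mul_right c)⟩
    have hSb : IsSU S b := ⟨hb, fun ℓ hℓ h => hS ℓ hℓ ((h.mul_left a).mul_right c)⟩
    have hSc : IsSU S c := ⟨hc, fun ℓ hℓ h => hS ℓ hℓ (h.mul_left (a * b))⟩
    have hmono : ∀ (m : ℕ), ∀ ℓ ∈ S, ℓ.Prime → ℓ ∈ T m := fun m ℓ h1 h2 =>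
      Finset.mem_insert_of_mem (Finset.mem_filter.mpr ⟨h1, h2⟩)
    rcases hcase with ⟨hxu, hyv, m, hm, hm2, hmR, hmd⟩ | ⟨hxu, hzv, m, hm, hm2, hmR, hmd⟩ |
      ⟨hyu, hzv, m, hm, hm2, hmR, hmd⟩
    · refine ⟨m, Finset.mem_filter.mpr ⟨Finset.mem_range.mpr (by omega), hm, hm2⟩, ?_⟩
      by_contra hcon
      simp only [Set.mem_union, Set.mem_ofPred_eq, not_or, not_not] at hcon
      exact noSol hm hm2 (hTp m hm) (Finset.mem_insert_self _ _) hcon.1 hcon.2 hp hq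
        (isSU_mono (hmono m) hSa) (isSU_mono (hmono m) hSb) (isSU_mono (hmono m) hSc)
        hxu hyv hmd g1 heq
    · refine ⟨m, Finset.mem_filter.mpr ⟨Finset.mem_range.mpr (by omega), hm, hm2⟩, ?_⟩
      by_contra hcon
      simp only [Set.mem_union, Set.mem_ofPred_eq, not_or, not_not] at hcon
      refine noSol (A := a) (B := -c) (C := -b) (X := x) (Y := z) (Z := y) hm hm2 (hTp m hm)
        (Finset.mem_insert_self _ _) hcon.1 hcon.2 hp hr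
        (isSU_mono (hmono m) hSa) (isSU_neg (isSU_mono (hmono m) hSc))
        (isSU_neg (isSU_mono (hmono m) hSb)) hxu hzv hmd ?_ ?_
      · rw [neg_mul]
        exact g2.neg_right
      · linear_combination heq
    · refine ⟨m, Finset.mem_filter.mpr ⟨Finset.mem_range.mpr (by omega), hm, hm2⟩, ?_⟩
      by_contra hcon
      simp only [Set.mem_union, Set.mem_ofPred_eq, not_or, not_not] at hcon
      refine noSol (A := b) (B := -c) (C := -a) (X := y) (Y := z) (Z := x) hm hm2 (hTp m hm)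
        (Finset.mem_insert_self _ _) hcon.1 hcon.2 hq hr
        (isSU_mono (hmono m) hSb) (isSU_neg (isSU_mono (hmono m) hSc))
        (isSU_neg (isSU_mono (hmono m) hSa)) hyu hzv hmd ?_ ?_
      · rw [neg_mul]
        exact g3.neg_right
      · linear_combination heq

end Pool.Agent.H755R5
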