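import Mathlib
import Pool.Agent.H755R5.G

/-!
Fourth powers: residue conditions for almost all pairs, and the equation
`c (a u ^ x + b v ^ y) = w ^ 4` with `S`-units `a`, `b`, `c`.
-/

set_option autoImplicit false

namespace Pool.Agent.H755R5

open Finset Pool.Agent.H374R2 Pool.Agent.H374R2.Beal

/-- Fourth power residue condition with coefficients `± ∏ ℓ ^ e ℓ`, `ℓ ∈ S`. -/
def Good4S (S : Finset ℕ) (u v : ℕ) : Prop :=
  ∀ (s : ℤ) (e : ℕ → ℕ) (y : ℕ), (s = 1 ∨ s = -1) → (∀ r : ℕ, r.Prime → r ∣ u → r ∉ S →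
    ∃ t : ZMod r, t ^ 4 = (s : ZMod r) * (∏ ℓ ∈ S, (ℓ : ZMod r) ^ e ℓ) * (v : ZMod r) ^ y) →
    s = 1 ∧ 4 ∣ y ∧ ∀ ℓ ∈ S, 4 ∣ e ℓ

theorem half_nonpow {n r : ℕ} (hr : r.Prime) (hn : n ∣ r - 1) {c : ZMod r} (hc : c ≠ 0) {y : ℕ}
    (hy : ¬ n ∣ y) :
    (1 / 4 : ℝ) * r ≤ {v : ZMod r | v ≠ 0 ∧ ¬ ∃ t : ZMod r, t ^ n = c * v ^ y}.ncard := by
  classical
  have : Fact r.Prime := ⟨hr⟩
  have hn0 : n ≠ 0 := by
    rintro rfl
    have h1 := Nat.eq_zero_of_zero_dvd hn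
    have := hr.two_le
    omega
  obtain ⟨g, hg⟩ := IsCyclic.exists_generator (α := (ZMod r)ˣ)
  have hord : orderOf g = r - 1 := by
    rw [orderOf_eq_card_of_forall_mem_zpowers hg, Nat.card_eq_fintype_card, ZMod.card_units]
  set P : Set (ZMod r) := {v : ZMod r | v ≠ 0 ∧ ∃ t : ZMod r, t ^ n = c * v ^ y} with hP
  set N : Set (ZMod r) := {v : ZMod r | v ≠ 0 ∧ ¬ ∃ t : ZMod r, t ^ n = c * v ^ y} with hN
  have hg0 : (g : ZMod r) ≠ 0 := g.ne_zero
  have hPN : P.ncard ≤ N.ncard := by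
    refine Set.ncard_le_ncard_of_injOn (fun v => (g : ZMod r) * v) ?_ ?_ (Set.toFinite _)
    · rintro v ⟨hv, t, ht⟩
      refine ⟨mul_ne_zero hg0 hv, ?_⟩
      rintro ⟨t', ht'⟩
      have hcv : c * v ^ y ≠ 0 := mul_ne_zero hc (pow_ne_zero _ hv)
      have ht0 : t ≠ 0 := by
        rintro rfl
        rw [zero_pow hn0] at ht
        exact hcv ht.symm
      have hcv' : c * ((g : ZMod r) * v) ^ y ≠ 0 :=
        mul_ne_zero hc (pow_ne_zero _ (mul_ne_zero hg0 hv))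
      have ht0' : t' ≠ 0 := by
        rintro rfl
        rw [zero_pow hn0] at ht'
        exact hcv' ht'.symm
      have h1 : (t' / t) ^ n = (g : ZMod r) ^ y := by
        rw [div_pow, ht, ht', mul_pow, div_eq_iff hcv]
        ring
      have hk := hg (Units.mk0 (t' / t) (div_ne_zero ht0' ht0))
      rw [← mem_powers_iff_mem_zpowers] at hk
      obtain ⟨k, hk⟩ := hk
      have h2 : g ^ (k * n) = g ^ y := by
        apply Units.ext
        rw [pow_mul]
        have h3 : g ^ k = Units.mk0 (t' / t) (div_ne_zero ht0' ht0) := hk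
        rw [h3]
        push_cast
        exact h1
      rw [pow_eq_pow_iff_modEq, hord] at h2
      apply hy
      have h3 : k * n ≡ y [MOD n] := h2.of_dvd hn
      have h4 : k * n ≡ 0 [MOD n] := (Nat.modEq_zero_iff_dvd).mpr (dvd_mul_left n k)
      exact (Nat.modEq_zero_iff_dvd).mp (h3.symm.trans h4)
    · intro v _ v' _ h
      exact mul_left_cancel₀ hg0 h
  have hsum : r - 1 ≤ P.ncard + N.ncard := by
    have h1 : {v : ZMod r | v ≠ 0} ⊆ P ∪ N := by
      intro v hv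
      by_cases h : ∃ t : ZMod r, t ^ n = c * v ^ y
      · exact Or.inl ⟨hv, h⟩
      · exact Or.inr ⟨hv, h⟩
    have h2 := (Set.ncard_le_ncard h1 (Set.toFinite _)).trans (Set.ncard_union_le P N)
    have h3 : {v : ZMod r | v ≠ 0}.ncard = r - 1 := by
      have h4 : {v : ZMod r | v ≠ 0} = ({0} : Set (ZMod r))ᶜ := by ext; simp
      rw [h4, Set.ncard_compl, Set.ncard_singleton, Nat.card_eq_fintype_card, ZMod.card]
    omega
  have h5 : r - 1 ≤ 2 * N.ncard := by omega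
  have h2 := hr.two_le
  have h6 : (r : ℝ) - 1 ≤ 2 * N.ncard := by
    have : ((r - 1 : ℕ) : ℝ) ≤ ((2 * N.ncard : ℕ) : ℝ) := by exact_mod_cast h5
    rw [Nat.cast_sub (by omega)] at this
    push_cast at this
    exact this
  have h7 : (2 : ℝ) ≤ r := by exact_mod_cast h2
  linarith

theorem nonzero_lower {r : ℕ} (hr : r.Prime) :
    (1 / 4 : ℝ) * r ≤ {v : ZMod r | v ≠ 0}.ncard := by
  have : Fact r.Prime := ⟨hr⟩
  have h3 : {v : ZMod r | v ≠ 0}.ncard = r - 1 := by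
    have h4 : {v : ZMod r | v ≠ 0} = ({0} : Set (ZMod r))ᶜ := by ext; simp
    rw [h4, Set.ncard_compl, Set.ncard_singleton, Nat.card_eq_fintype_card, ZMod.card]
  have h2 := hr.two_le
  rw [h3, Nat.cast_sub (by omega)]
  have h7 : (2 : ℝ) ≤ r := by exact_mod_cast h2
  push_cast
  linarith

/-- reduction of the exponents modulo `q`, with a factor -/
theorem red_mod' {q r : ℕ} (hr : r.Prime) {S : Finset ℕ} (hS : ∀ ℓ ∈ S, ℓ.Prime) (hrS : r ∉ S)
    {v : ZMod r} (hv : v ≠ 0) {e : ℕ → ℕ} {y : ℕ} {s : ZMod r}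
    (h : ∃ t : ZMod r, t ^ q = s * (∏ ℓ ∈ S, (ℓ : ZMod r) ^ e ℓ) * v ^ y) :
    ∃ t : ZMod r, t ^ q = s * (∏ ℓ ∈ S, (ℓ : ZMod r) ^ (e ℓ % q)) * v ^ (y % q) := by
  have : Fact r.Prime := ⟨hr⟩
  obtain ⟨t, ht⟩ := h
  have hne : ∀ ℓ ∈ S, (ℓ : ZMod r) ≠ 0 := by
    intro ℓ hℓ h0
    rw [ZMod.natCast_eq_zero_iff] at h0
    have := (Nat.prime_dvd_prime_iff_eq hr (hS ℓ hℓ)).mp h0
    exact hrS (this ▸ hℓ)
  set D : ZMod r := (∏ ℓ ∈ S, (ℓ : ZMod r) ^ (e ℓ / q)) * v ^ (y / q) with hD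
  have hD0 : D ≠ 0 := by
    rw [hD]
    refine mul_ne_zero (Finset.prod_ne_zero_iff.mpr fun ℓ hℓ => pow_ne_zero _ (hne ℓ hℓ))
      (pow_ne_zero _ hv)
  refine ⟨t / D, ?_⟩
  rw [div_pow, ht, div_eq_iff (pow_ne_zero _ hD0), hD, mul_pow, ← Finset.prod_pow]
  have e1 : v ^ y = v ^ (y % q) * (v ^ (y / q)) ^ q := by
    rw [← pow_mul, ← pow_add]
    congr 1
    rw [mul_comm]
    exact (Nat.mod_add_div y q).symm
  have e2 : (∏ ℓ ∈ S, (ℓ : ZMod r) ^ e ℓ) = (∏ ℓ ∈ S, (ℓ : ZMod r) ^ (e ℓ % q)) *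
      ∏ ℓ ∈ S, ((ℓ : ZMod r) ^ (e ℓ / q)) ^ q := by
    rw [← Finset.prod_mul_distrib]
    apply Finset.prod_congr rfl
    intro ℓ _
    rw [← pow_mul, ← pow_add]
    congr 1
    rw [mul_comm]
    exact (Nat.mod_add_div _ q).symm
  rw [e1, e2]
  ring

theorem uniformNull_not_good4S {S : Finset ℕ} (hS : ∀ ℓ ∈ S, ℓ.Prime)
    (hK1 : ∀ η : ℤ, (¬ ∃ t : ℤ, t ^ 2 = η) → ¬ Summable (fun r : ℕ =>
      {r : ℕ | r.Prime ∧ ¬ ∃ t : ZMod r, t ^ 2 = (η : ZMod r)}.indicator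
        (fun n : ℕ => (1 : ℝ) / n) r))
    (hK2 : ∀ ρ : ℕ, 0 < ρ → (¬ ∃ t : ℕ, t ^ 2 = ρ) → ¬ Summable (fun r : ℕ =>
      {r : ℕ | (r.Prime ∧ 4 ∣ r - 1) ∧ ¬ ∃ t : ZMod r, t ^ 2 = (ρ : ZMod r)}.indicator
        (fun n : ℕ => (1 : ℝ) / n) r)) :
    UniformNull {p | ¬ Good4S S p.1 p.2} := by
  classical
  -- the classes of exponents
  set J : Finset (ℤ × (S → ℕ) × ℕ) := (({1, -1} : Finset ℤ) ×ˢ
    Fintype.piFinset (fun _ : S => range 4) ×ˢ range 4).filter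
    (fun j => ¬ (j.1 = 1 ∧ j.2.2 = 0 ∧ ∀ ℓ, j.2.1 ℓ = 0)) with hJ
  let ext : (S → ℕ) → ℕ → ℕ := fun f ℓ => if h : ℓ ∈ S then f ⟨ℓ, h⟩ else 0
  let E : ℤ × (S → ℕ) × ℕ → Set (ℕ × ℕ) := fun j =>
    {p | ∀ r : ℕ, r.Prime → r ∣ p.1 → r ∉ S → (p.2 : ZMod r) ≠ 0 →
      ∃ t : ZMod r, t ^ 4 = (j.1 : ZMod r) * (∏ ℓ ∈ S, (ℓ : ZMod r) ^ (ext j.2.1 ℓ)) *
        (p.2 : ZMod r) ^ j.2.2}
  refine (uniformNull_biUnion J E ?_).mono ?_
  · rintro ⟨s, f, y⟩ hj
    rw [hJ, Finset.mem_filter, Finset.mem_product, Finset.mem_product, Fintype.mem_piFinset,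
      Finset.mem_range] at hj
    obtain ⟨⟨hs, hf, hy⟩, hne⟩ := hj
    simp only at hs hf hy hne
    have hs' : s = 1 ∨ s = -1 := by simpa using hs
    have hext : ∀ ℓ ∈ S, ext f ℓ < 4 := by
      intro ℓ hℓ
      simp only [ext, dif_pos hℓ]
      exact Finset.mem_range.mp (hf ⟨ℓ, hℓ⟩)
    set η : ℕ := ∏ ℓ ∈ S, ℓ ^ ext f ℓ with hη
    have hη0 : 0 < η := Finset.prod_pos fun ℓ hℓ => pow_pos (hS ℓ hℓ).pos _
    have hηcast : ∀ r : ℕ, (η : ZMod r) = ∏ ℓ ∈ S, (ℓ : ZMod r) ^ ext f ℓ := by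
      intro r
      rw [hη]
      push_cast
      rfl
    -- a set of primes suffices
    have hfin : ∀ R : Set ℕ, (∀ r ∈ R, r.Prime) →
        (¬ Summable (fun r : ℕ => R.indicator (fun n : ℕ => (1 : ℝ) / n) r)) → y = 0 →
        (∀ r ∈ R, ¬ ∃ t : ZMod r, t ^ 4 = (s : ZMod r) * (η : ZMod r)) →
        UniformNull (E (s, f, y)) := by
      intro R hR hdiv hy0 hRs
      have hA := uniformNull_core (R \ (S : Set ℕ)) (fun r hr => hR r hr.1)
        (not_summable_diff S hdiv) (fun r => {v : ZMod r | v ≠ 0}) (1 / 4) (by norm_num)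
        (fun r hr => nonzero_lower (hR r hr.1))
      refine hA.mono ?_
      rintro ⟨u, v⟩ hp r hr ⟨hru, hrv⟩
      simp only at hru hrv
      have h1 := hp r (hR r hr.1) hru (by exact_mod_cast hr.2) hrv
      simp only [hy0, pow_zero, mul_one] at h1
      rw [← hηcast r] at h1
      exact hRs r hr.1 h1
    rcases Nat.eq_zero_or_pos y with hy0 | hy0
    · rcases hs' with hs1 | hs1
      · -- sign `+`
        have hex : ∃ ℓ₀, ∃ hℓ₀ : ℓ₀ ∈ S, f ⟨ℓ₀, hℓ₀⟩ ≠ 0 := by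
          by_contra hcon
          push Not at hcon
          exact hne ⟨hs1, hy0, fun ℓ => hcon ℓ ℓ.2⟩
        obtain ⟨ℓ₀, hℓ₀, hf0⟩ := hex
        have hη1 : ¬ ∃ t : ℕ, t ^ 4 = η := by
          apply prod_not_pow hS hext hℓ₀
          simp only [ext, dif_pos hℓ₀]
          exact hf0
        by_cases hsq : ∃ ρ : ℕ, ρ ^ 2 = η
        · obtain ⟨ρ, hρ⟩ := hsq
          have hρ0 : 0 < ρ := by
            rcases Nat.eq_zero_or_pos ρ with h | h
            · rw [h] at hρ; simp at hρ; omega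
            · exact h
          have hρ1 : ¬ ∃ t : ℕ, t ^ 2 = ρ := by
            rintro ⟨t, ht⟩
            exact hη1 ⟨t, by rw [← hρ, ← ht]; ring⟩
          refine hfin _ (fun r hr => hr.1.1) (hK2 ρ hρ0 hρ1) hy0 ?_
          rintro r ⟨⟨hr, h4⟩, hnr⟩ ⟨t, ht⟩
          have : Fact r.Prime := ⟨hr⟩
          have e1 : (t ^ 2 - (ρ : ZMod r)) * (t ^ 2 + ρ) = 0 := by
            have e2 : (η : ZMod r) = (ρ : ZMod r) ^ 2 := by rw [← hρ]; push_cast; rfl
            rw [hs1, e2] at ht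
            push_cast at ht
            linear_combination ht
          rcases mul_eq_zero.mp e1 with e2 | e2
          · exact hnr ⟨t, by linear_combination e2⟩
          · obtain ⟨i, hi⟩ : ∃ i : ZMod r, i ^ 2 = -1 := by
              have h5 : IsSquare (-1 : ZMod r) := by
                rw [ZMod.exists_sq_eq_neg_one_iff]
                have := hr.two_le
                omega
              obtain ⟨i, hi⟩ := h5
              exact ⟨i, by rw [hi]; ring⟩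
            exact hnr ⟨i * t, by rw [mul_pow, hi]; linear_combination -e2⟩
        · have hη2 : ¬ ∃ t : ℤ, t ^ 2 = (η : ℤ) := by
            rintro ⟨t, ht⟩
            apply hsq
            refine ⟨t.natAbs, ?_⟩
            have : ((t.natAbs ^ 2 : ℕ) : ℤ) = (η : ℤ) := by
              push_cast
              rw [sq_abs, ht]
            exact_mod_cast this
          refine hfin _ (fun r hr => hr.1) (hK1 η hη2) hy0 ?_
          rintro r ⟨hr, hnr⟩ ⟨t, ht⟩
          apply hnr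
          refine ⟨t ^ 2, ?_⟩
          rw [← pow_mul, ht, hs1]
          push_cast
          ring
      · -- sign `-`
        have hη2 : ¬ ∃ t : ℤ, t ^ 2 = -(η : ℤ) := by
          rintro ⟨t, ht⟩
          have h1 : (0 : ℤ) < η := by exact_mod_cast hη0
          have h2 := sq_nonneg t
          omega
        refine hfin _ (fun r hr => hr.1) (hK1 _ hη2) hy0 ?_
        rintro r ⟨hr, hnr⟩ ⟨t, ht⟩
        apply hnr
        refine ⟨t ^ 2, ?_⟩
        rw [← pow_mul, ht, hs1]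
        push_cast
        ring
    · -- the classes with a power of `v`
      have hqy : ¬ 4 ∣ y := fun h => by
        have := Nat.le_of_dvd hy0 h
        omega
      have hdiv := not_summable_diff S (primes_one_div 4 (by norm_num))
      have hA := uniformNull_core ({r : ℕ | r.Prime ∧ 4 ∣ r - 1} \ (S : Set ℕ))
        (fun r hr => hr.1.1) hdiv
        (fun r => {v : ZMod r | v ≠ 0 ∧ ¬ ∃ t : ZMod r, t ^ 4 = ((s : ZMod r) * η) * v ^ y})
        (1 / 4) (by norm_num) (by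
          rintro r ⟨⟨hr, hqr⟩, hrS⟩
          have : Fact r.Prime := ⟨hr⟩
          apply half_nonpow hr hqr _ hqy
          have hη0' : (η : ZMod r) ≠ 0 := by
            rw [hηcast r]
            refine Finset.prod_ne_zero_iff.mpr fun ℓ hℓ => pow_ne_zero _ ?_
            intro h0
            rw [ZMod.natCast_eq_zero_iff] at h0
            have := (Nat.prime_dvd_prime_iff_eq hr (hS ℓ hℓ)).mp h0
            exact hrS (this ▸ hℓ)
          refine mul_ne_zero ?_ hη0'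
          rcases hs' with h | h
          · rw [h]; push_cast; exact one_ne_zero
          · rw [h]; push_cast; exact neg_ne_zero.mpr one_ne_zero)
      refine hA.mono ?_
      rintro ⟨u, v⟩ hp r ⟨⟨hr, hqr⟩, hrS⟩ ⟨hru, hrv0, hrv⟩
      simp only at hru hrv hrv0
      apply hrv
      have h1 := hp r hr hru (by exact_mod_cast hrS) hrv0
      simp only at h1
      rw [← hηcast r] at h1
      exact h1
  · rintro ⟨u, v⟩ hp
    have hp' : ¬ Good4S S u v := hp
    unfold Good4S at hp'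
    push Not at hp'
    obtain ⟨s, e, y, hs, hall, hfail⟩ := hp'
    refine ⟨(s, fun ℓ => e ℓ % 4, y % 4), ?_, ?_⟩
    · rw [hJ, Finset.mem_filter, Finset.mem_product, Finset.mem_product, Fintype.mem_piFinset]
      refine ⟨⟨by simpa using hs, fun ℓ => Finset.mem_range.mpr (Nat.mod_lt _ (by norm_num)),
        Finset.mem_range.mpr (Nat.mod_lt _ (by norm_num))⟩, ?_⟩
      rintro ⟨h0, h1, h2⟩
      simp only at h0 h1 h2
      obtain ⟨ℓ, hℓ, hnd⟩ := hfail h0 (Nat.dvd_of_mod_eq_zero h1)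
      exact hnd (Nat.dvd_of_mod_eq_zero (h2 ⟨ℓ, hℓ⟩))
    · intro r hr hru hrS hv0
      have h1 := red_mod' hr hS hrS hv0 (hall r hr hru hrS)
      have h2 : (∏ ℓ ∈ S, (ℓ : ZMod r) ^ (ext (fun ℓ : S => e ℓ % 4) ℓ)) =
          ∏ ℓ ∈ S, (ℓ : ZMod r) ^ (e ℓ % 4) := by
        apply Finset.prod_congr rfl
        intro ℓ hℓ
        simp only [ext, dif_pos hℓ]
      rw [h2]
      exact h1

end Pool.Agent.H755R5
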