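import Mathlib
import Pool.Agent.H755R5.E4

/-!
Exponents divisible by `4`, and the assembly for all third exponents from `3` to `R`.
-/

set_option autoImplicit false

namespace Pool.Agent.H755R5

open Finset Pool.Agent.H374R2 Pool.Agent.H374R2.Beal
open Pool.Agent.H755R5.Kum (NonRes)

theorem res4_of_eq {S : Finset ℕ} (hS : ∀ ℓ ∈ S, ℓ.Prime) {u v : ℕ}
    (h1 : Good4S S u v) {x y : ℕ} {a b c w : ℤ} (hx : 0 < x) (hb : IsSU S b)
    (hc : IsSU S c) (h : c * (a * (u : ℤ) ^ x + b * (v : ℤ) ^ y) = w ^ 4) :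
    0 < c * b ∧ 4 ∣ y ∧ ∀ ℓ ∈ S, 4 ∣ (c * b).natAbs.factorization ℓ := by
  have hcb := hc.mul hb
  have hs : (c * b).sign = 1 ∨ (c * b).sign = -1 := by
    rcases lt_trichotomy (c * b) 0 with h0 | h0 | h0
    · exact Or.inr (Int.sign_eq_neg_one_of_neg h0)
    · exact absurd h0 hcb.1
    · exact Or.inl (Int.sign_eq_one_of_pos h0)
  obtain ⟨e1, e2, e3⟩ := h1 (c * b).sign (fun ℓ => (c * b).natAbs.factorization ℓ) y hs (by
    intro r hr hru _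
    have hru' : ((u : ℤ) : ZMod r) = 0 := by
      rw [Int.cast_natCast]; exact (ZMod.natCast_eq_zero_iff u r).mpr hru
    have h3 := congrArg (fun z : ℤ => (z : ZMod r)) h
    simp only [Int.cast_mul, Int.cast_pow, Int.cast_add] at h3
    rw [hru', zero_pow hx.ne', mul_zero, zero_add, Int.cast_natCast] at h3
    have h4 : (((c * b).natAbs : ℕ) : ZMod r) =
        ∏ ℓ ∈ S, (ℓ : ZMod r) ^ (c * b).natAbs.factorization ℓ := by
      have := congrArg (fun z : ℕ => (z : ZMod r)) (hcb.natAbs_eq hS)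
      simpa using this
    rw [← h4]
    refine ⟨(w : ZMod r), ?_⟩
    have h5 : (((c * b).sign : ℤ) : ZMod r) * (((c * b).natAbs : ℕ) : ZMod r) =
        (c : ZMod r) * (b : ZMod r) := by
      have := congrArg (fun z : ℤ => (z : ZMod r)) (Int.sign_mul_natAbs (c * b))
      simp only [Int.cast_mul, Int.cast_natCast] at this
      exact this
    rw [h5, ← h3]
    ring)
  exact ⟨Int.sign_eq_one_iff_pos.mp e1, e2, e3⟩

theorem IsSU.natAbs_pow_four {S : Finset ℕ} (hS : ∀ ℓ ∈ S, ℓ.Prime) {a : ℤ}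
    (ha : IsSU S a) (h : ∀ ℓ ∈ S, 4 ∣ a.natAbs.factorization ℓ) :
    ∃ a₁ : ℕ, a₁ ≠ 0 ∧ a.natAbs = a₁ ^ 4 := by
  have h1 : a.natAbs = (∏ ℓ ∈ S, ℓ ^ (a.natAbs.factorization ℓ / 4)) ^ 4 := by
    rw [← Finset.prod_pow]
    conv_lhs => rw [ha.natAbs_eq hS]
    apply Finset.prod_congr rfl
    intro ℓ hℓ
    rw [← pow_mul, Nat.div_mul_cancel (h ℓ hℓ)]
  refine ⟨_, ?_, h1⟩
  intro h0
  rw [h0] at h1
  have : a.natAbs ≠ 0 := Int.natAbs_ne_zero.mpr ha.1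
  exact this (by rw [h1]; rfl)

theorem no_sol4 {S : Finset ℕ} (hS : ∀ ℓ ∈ S, ℓ.Prime) {u v : ℕ} (hu : u ≠ 0) (hv : v ≠ 0)
    (h1 : Good4S S u v) (h2 : Good4S S v u) {x y : ℕ} {a b c w : ℤ} (hx : 0 < x) (hy : 0 < y)
    (ha : IsSU S a) (hb : IsSU S b) (hc : IsSU S c)
    (hco : IsCoprime (a * (u : ℤ) ^ x) (b * (v : ℤ) ^ y))
    (h : c * (a * (u : ℤ) ^ x + b * (v : ℤ) ^ y) = w ^ 4) : False := by
  obtain ⟨hcb, hqy, hvb⟩ := res4_of_eq hS h1 hx hb hc h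
  obtain ⟨hca, hqx, hva⟩ := res4_of_eq (x := y) (y := x) (a := b) (b := a) hS h2 hy ha hc
    (by rw [← h]; ring)
  have hval : ∀ ℓ ∈ S, 4 ∣ a.natAbs.factorization ℓ ∧ 4 ∣ b.natAbs.factorization ℓ ∧
      4 ∣ c.natAbs.factorization ℓ := by
    intro ℓ hℓ
    have hp := hS ℓ hℓ
    have e1 := hvb ℓ hℓ
    have e2 := hva ℓ hℓ
    have hc0 : c.natAbs ≠ 0 := Int.natAbs_ne_zero.mpr hc.1
    have hb0 : b.natAbs ≠ 0 := Int.natAbs_ne_zero.mpr hb.1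
    have ha0 : a.natAbs ≠ 0 := Int.natAbs_ne_zero.mpr ha.1
    rw [Int.natAbs_mul, Nat.factorization_mul hc0 hb0, Finsupp.coe_add, Pi.add_apply] at e1
    rw [Int.natAbs_mul, Nat.factorization_mul hc0 ha0, Finsupp.coe_add, Pi.add_apply] at e2
    have e3 : a.natAbs.factorization ℓ = 0 ∨ b.natAbs.factorization ℓ = 0 := by
      by_contra hcon
      push Not at hcon
      have f1 : ℓ ∣ a.natAbs := (hp.dvd_iff_one_le_factorization ha0).mpr (by omega)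
      have f2 : ℓ ∣ b.natAbs := (hp.dvd_iff_one_le_factorization hb0).mpr (by omega)
      have f3 : (ℓ : ℤ) ∣ a * (u : ℤ) ^ x := (Int.natCast_dvd.mpr f1).mul_right _
      have f4 : (ℓ : ℤ) ∣ b * (v : ℤ) ^ y := (Int.natCast_dvd.mpr f2).mul_right _
      have f5 := hco.isUnit_of_dvd' f3 f4
      have f6 := Int.isUnit_iff_natAbs_eq.mp f5
      rw [Int.natAbs_natCast] at f6
      exact hp.one_lt.ne' f6
    rcases e3 with e3 | e3
    · rw [e3, add_zero] at e2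
      exact ⟨e3 ▸ dvd_zero 4, (Nat.dvd_add_right e2).mp e1, e2⟩
    · rw [e3, add_zero] at e1
      exact ⟨(Nat.dvd_add_right e1).mp e2, e3 ▸ dvd_zero 4, e1⟩
  obtain ⟨a₁, ha₁, ha4⟩ := ha.natAbs_pow_four hS (fun ℓ hℓ => (hval ℓ hℓ).1)
  obtain ⟨b₁, hb₁, hb4⟩ := hb.natAbs_pow_four hS (fun ℓ hℓ => (hval ℓ hℓ).2.1)
  obtain ⟨c₁, hc₁, hc4⟩ := hc.natAbs_pow_four hS (fun ℓ hℓ => (hval ℓ hℓ).2.2)
  obtain ⟨x', rfl⟩ := hqx
  obtain ⟨y', rfl⟩ := hqy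
  have hca' : ((c.natAbs * a.natAbs : ℕ) : ℤ) = c * a := by
    rw [← Int.natAbs_mul, Int.natCast_natAbs, abs_of_pos hca]
  have hcb' : ((c.natAbs * b.natAbs : ℕ) : ℤ) = c * b := by
    rw [← Int.natAbs_mul, Int.natCast_natAbs, abs_of_pos hcb]
  have hnat : (c₁ * a₁ * u ^ x') ^ 4 + (c₁ * b₁ * v ^ y') ^ 4 = w.natAbs ^ 4 := by
    have e1 : ((c₁ * a₁ * u ^ x') ^ 4 + (c₁ * b₁ * v ^ y') ^ 4 : ℕ) =
        c.natAbs * a.natAbs * u ^ (4 * x') + c.natAbs * b.natAbs * v ^ (4 * y') := by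
      rw [ha4, hb4, hc4, mul_comm 4 x', mul_comm 4 y', pow_mul, pow_mul]
      ring
    have e2 : ((c.natAbs * a.natAbs * u ^ (4 * x') + c.natAbs * b.natAbs * v ^ (4 * y') : ℕ) : ℤ) =
        ((w.natAbs ^ 4 : ℕ) : ℤ) := by
      have e3 : ((w.natAbs ^ 4 : ℕ) : ℤ) = w ^ 4 := by
        push_cast
        rw [show |w| ^ 4 = (|w| ^ 2) ^ 2 by ring, sq_abs]
        ring
      rw [e3, ← h, Nat.cast_add, Nat.cast_mul (c.natAbs * a.natAbs), Nat.cast_mul (c.natAbs * b.natAbs),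
        hca', hcb']
      push_cast
      ring
    rw [e1]
    exact_mod_cast e2
  have hA : c₁ * a₁ * u ^ x' ≠ 0 := mul_ne_zero (mul_ne_zero hc₁ ha₁) (pow_ne_zero _ hu)
  have hB : c₁ * b₁ * v ^ y' ≠ 0 := mul_ne_zero (mul_ne_zero hc₁ hb₁) (pow_ne_zero _ hv)
  have hW : w.natAbs ≠ 0 := by
    intro h0
    rw [h0] at hnat
    have : (c₁ * a₁ * u ^ x') ^ 4 = 0 := by
      have h5 : (0 : ℕ) ^ 4 = 0 := rfl
      omega
    exact hA ((pow_eq_zero_iff (by norm_num)).mp this)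
  exact fermatLastTheoremFour _ _ _ hA hB hW hnat

theorem noSol4 {S : Finset ℕ} (hS : ∀ ℓ ∈ S, ℓ.Prime) {u v : ℕ} (h1 : Good4S S u v)
    (h2 : Good4S S v u) {A B C X Y Z : ℤ}
    {p p' n : ℕ} (hp : 0 < p) (hp' : 0 < p') (hA : IsSU S A) (hB : IsSU S B) (hC : IsSU S C)
    (hX0 : X ≠ 0) (hY0 : Y ≠ 0)
    (hX : X.natAbs = u) (hY : Y.natAbs = v) (hn : 4 ∣ n)
    (hco : IsCoprime (A * X ^ p) (B * Y ^ p')) (heq : A * X ^ p + B * Y ^ p' = C * Z ^ n) :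
    False := by
  obtain ⟨A', hA', e1⟩ := sign_move hA hX p
  obtain ⟨B', hB', e2⟩ := sign_move hB hY p'
  obtain ⟨k, rfl⟩ := hn
  rw [e1, e2] at hco heq
  have hu : u ≠ 0 := by rw [← hX]; exact Int.natAbs_ne_zero.mpr hX0
  have hv : v ≠ 0 := by rw [← hY]; exact Int.natAbs_ne_zero.mpr hY0
  refine no_sol4 hS hu hv h1 h2 (c := C ^ 3) (w := C * Z ^ k) hp hp' hA' hB' (isSU_pow hC _) hco ?_
  rw [heq, mul_pow, ← pow_mul, mul_comm k 4, ← mul_assoc, ← pow_succ]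

/-- `m` is divisible by some `n` with `3 ≤ n ≤ R` -/
def MidDvd (R m : ℕ) : Prop := ∃ n : ℕ, 3 ≤ n ∧ n ≤ R ∧ n ∣ m

theorem midDvd_or {R m : ℕ} (h : MidDvd R m) : OddPr R m ∨ 4 ∣ m := by
  obtain ⟨n, h3, hR, hd⟩ := h
  rcases Nat.four_dvd_or_exists_odd_prime_and_dvd_of_two_lt (n := n) (by omega) with h4 | ⟨p, hp, hpd, hodd⟩
  · exact Or.inr (h4.trans hd)
  · left
    refine ⟨p, hp, ?_, (Nat.le_of_dvd (by omega) hpd).trans hR, hpd.trans hd⟩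
    rintro rfl
    exact absurd hodd (by decide)

/-- the pairs of bases of an `S`-solution whose third exponent is divisible by some `n` with
`3 ≤ n ≤ R` -/
def ExcM (S : Finset ℕ) (R : ℕ) : Set (ℕ × ℕ) :=
  {w | ∃ (a b c x y z : ℤ) (p q r : ℕ), SSol S a b c x y z p q r ∧
    ((x.natAbs = w.1 ∧ y.natAbs = w.2 ∧ MidDvd R r) ∨
     (x.natAbs = w.1 ∧ z.natAbs = w.2 ∧ MidDvd R q) ∨
     (y.natAbs = w.1 ∧ z.natAbs = w.2 ∧ MidDvd R p))}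

theorem excM_null
    (hK : ∀ q η : ℕ, q.Prime → 0 < η → (¬ ∃ t : ℕ, t ^ q = η) →
      ¬ Summable (fun r : ℕ => (NonRes q η).indicator (fun n : ℕ => (1 : ℝ) / n) r))
    (hK1 : ∀ η : ℤ, (¬ ∃ t : ℤ, t ^ 2 = η) → ¬ Summable (fun r : ℕ =>
      {r : ℕ | r.Prime ∧ ¬ ∃ t : ZMod r, t ^ 2 = (η : ZMod r)}.indicator
        (fun n : ℕ => (1 : ℝ) / n) r))
    (hK2 : ∀ ρ : ℕ, 0 < ρ → (¬ ∃ t : ℕ, t ^ 2 = ρ) → ¬ Summable (fun r : ℕ =>
      {r : ℕ | (r.Prime ∧ 4 ∣ r - 1) ∧ ¬ ∃ t : ZMod r, t ^ 2 = (ρ : ZMod r)}.indicator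
        (fun n : ℕ => (1 : ℝ) / n) r))
    (S : Finset ℕ) (R : ℕ) : UniformNull (ExcM S R) := by
  classical
  set T : Finset ℕ := S.filter Nat.Prime with hT
  have hTp : ∀ ℓ ∈ T, ℓ.Prime := fun ℓ hℓ => (Finset.mem_filter.mp hℓ).2
  have h4 := uniformNull_not_good4S hTp hK1 hK2
  refine ((excS_null hK S R).union (h4.union h4.swap)).mono ?_
  rintro ⟨u, v⟩ ⟨a, b, c, x, y, z, p, q, r, hsol, hcase⟩
  by_cases hodd : (u, v) ∈ ExcS S R
  · exact Or.inl hodd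
  right
  by_contra hcon
  simp only [Set.mem_union, Set.mem_ofPred_eq, not_or, not_not] at hcon
  obtain ⟨hg1, hg2⟩ := hcon
  have hg2' : Good4S T v u := by simpa using hg2
  have hg1' : Good4S T u v := by simpa using hg1
  have hsol' := hsol
  obtain ⟨hp, hq, hr, ha, hb, hc, hx, hy, hz, hS, hgcd, heq⟩ := hsol
  simp only at hcase
  obtain ⟨g1, g2, g3⟩ := gcd_one hgcd heq
  have hmono : ∀ ℓ ∈ S, ℓ.Prime → ℓ ∈ T := fun ℓ h1 h2 => Finset.mem_filter.mpr ⟨h1, h2⟩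
  have hSa : IsSU T a :=
    isSU_mono hmono ⟨ha, fun ℓ hℓ h => hS ℓ hℓ ((h.mul_right b).mul_right c)⟩
  have hSb : IsSU T b :=
    isSU_mono hmono ⟨hb, fun ℓ hℓ h => hS ℓ hℓ ((h.mul_left a).mul_right c)⟩
  have hSc : IsSU T c :=
    isSU_mono hmono ⟨hc, fun ℓ hℓ h => hS ℓ hℓ (h.mul_left (a * b))⟩
  rcases hcase with ⟨hxu, hyv, hm⟩ | ⟨hxu, hzv, hm⟩ | ⟨hyu, hzv, hm⟩
  · rcases midDvd_or hm with ho | h4d
    · exact hodd ⟨a, b, c, x, y, z, p, q, r, hsol', Or.inl ⟨hxu, hyv, ho⟩⟩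
    · exact noSol4 hTp hg1' hg2' hp hq hSa hSb hSc hx hy hxu hyv h4d g1 heq
  · rcases midDvd_or hm with ho | h4d
    · exact hodd ⟨a, b, c, x, y, z, p, q, r, hsol', Or.inr (Or.inl ⟨hxu, hzv, ho⟩)⟩
    · refine noSol4 (A := a) (B := -c) (C := -b) (X := x) (Y := z) (Z := y) hTp hg1' hg2' hp hr
        hSa (isSU_neg hSc) (isSU_neg hSb) hx hz hxu hzv h4d ?_ ?_
      · rw [neg_mul]
        exact g2.neg_right
      · linear_combination heq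
  · rcases midDvd_or hm with ho | h4d
    · exact hodd ⟨a, b, c, x, y, z, p, q, r, hsol', Or.inr (Or.inr ⟨hyu, hzv, ho⟩)⟩
    · refine noSol4 (A := b) (B := -c) (C := -a) (X := y) (Y := z) (Z := x) hTp hg1' hg2' hq hr
        hSb (isSU_neg hSc) (isSU_neg hSa) hy hz hyu hzv h4d ?_ ?_
      · rw [neg_mul]
        exact g3.neg_right
      · linear_combination heq

end Pool.Agent.H755R5
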