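import Mathlib
import Pool.Agent.H755R4.SU3

/-!
For almost all `B` of a short interval: few `B` have an `S`-unit multiple of a power which is a
difference `t - s` with `rad (s t)` dividing a given squarefree number.
-/

set_option autoImplicit false

namespace Pool.Agent.H755R5.U

open Finset Filter Topology Pool.Agent.H374R2 Pool.Agent.H374R2.Z Pool.Agent.H755R4
  Pool.Agent.H755R4.SU

/-- the classes for a given radical -/
def DD (m E : ℕ) : Finset (ℕ × ℕ) := (m ^ E).divisors ×ˢ (m ^ E).divisors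

theorem mem_DD {q m s t : ℕ} (hq : 0 < q) (hm : 0 < m) (hs : 0 < s) (ht : 0 < t)
    (h : rad (s * t) ∣ m) : (lo q s, lo q t) ∈ DD m (q - 1) := by
  have hne : m ^ (q - 1) ≠ 0 := (pow_pos hm _).ne'
  unfold DD
  rw [mem_product, Nat.mem_divisors, Nat.mem_divisors]
  refine ⟨⟨?_, hne⟩, ⟨?_, hne⟩⟩
  · exact (L.lo_hi hq hs).2.2.2.trans
      (pow_dvd_pow_of_dvd ((Q4.rad_dvd_left hs.ne' ht.ne').trans h) _)
  · exact (L.lo_hi hq ht).2.2.2.trans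
      (pow_dvd_pow_of_dvd ((Q4.rad_dvd_right hs.ne' ht.ne').trans h) _)

theorem dd_card (q : ℕ) (hq : 2 ≤ q) {γ : ℝ} (hγ : 0 < γ) : ∃ C : ℝ, 1 ≤ C ∧ ∀ m : ℕ, 0 < m →
    Squarefree m → ((DD m (q - 1)).card : ℝ) ≤ C * (m : ℝ) ^ γ := by
  have hqR : (1 : ℝ) ≤ (q : ℝ) ^ 2 := by
    have : (1 : ℝ) ≤ q := by exact_mod_cast (by omega : 1 ≤ q)
    exact one_le_pow₀ this
  obtain ⟨C, hC, h⟩ := Q2.pow_omega hqR hγ
  refine ⟨C, hC, fun m hm hsq => ?_⟩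
  refine le_trans ?_ (h m hm)
  have h1 := CD.card_div (E := q - 1) hm.ne' hsq le_rfl
  rw [Nat.sub_add_cancel (by omega : 1 ≤ q)] at h1
  unfold DD
  rw [card_product]
  have h2 : (((m ^ (q - 1)).divisors.card : ℕ) : ℝ) ≤ (q : ℝ) ^ m.primeFactors.card := by
    exact_mod_cast h1
  push_cast
  calc (((m ^ (q - 1)).divisors.card : ℕ) : ℝ) * (((m ^ (q - 1)).divisors.card : ℕ) : ℝ) ≤
      (q : ℝ) ^ m.primeFactors.card * (q : ℝ) ^ m.primeFactors.card := by gcongr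
    _ = ((q : ℝ) ^ 2) ^ m.primeFactors.card := by rw [← mul_pow]; congr 1; ring

theorem small_one (K : ℕ) {γ : ℝ} (hγ : 0 < γ) : ∃ C : ℝ, 1 ≤ C ∧ ∀ N m : ℕ, 1 ≤ N → 0 < m →
    m ≤ N → (((Icc 1 (N ^ K)).filter (fun s => rad s ∣ m)).card : ℝ) ^ 2 ≤ C * (N : ℝ) ^ γ := by
  have hg : 0 < γ / (4 * ((K : ℝ) + 1)) := by positivity
  obtain ⟨C1, hC1, h1⟩ := Q1.rankin hg
  obtain ⟨C2, hC2, h2⟩ := Q2.pow_omega (K := C1 ^ 2) (γ := γ / 2) (one_le_pow₀ hC1) (by positivity)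
  refine ⟨C2, hC2, fun N m hN hm hmN' => ?_⟩
  have hN0 : (0 : ℝ) < N := by exact_mod_cast (show 0 < N by omega)
  have hN1 : (1 : ℝ) ≤ N := by exact_mod_cast hN
  have hm0 : (0 : ℝ) < m := by exact_mod_cast hm
  have hmN : (m : ℝ) ≤ N := by exact_mod_cast hmN'
  have e1 := h1 (N ^ K) m (Nat.one_le_pow _ _ (by omega)) (by omega)
  have e2 := h2 m (by omega)
  have e3 : (((Icc 1 (N ^ K)).filter (fun s => rad s ∣ m)).card : ℝ) ^ 2 ≤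
      (C1 ^ m.primeFactors.card * ((N ^ K : ℕ) : ℝ) ^ (γ / (4 * ((K : ℝ) + 1)))) ^ 2 :=
    pow_le_pow_left₀ (Nat.cast_nonneg _) e1 2
  refine e3.trans ?_
  have e4 : (C1 ^ m.primeFactors.card * ((N ^ K : ℕ) : ℝ) ^ (γ / (4 * ((K : ℝ) + 1)))) ^ 2 =
      (C1 ^ 2) ^ m.primeFactors.card *
        (((N ^ K : ℕ) : ℝ) ^ (γ / (4 * ((K : ℝ) + 1)))) ^ 2 := by
    rw [mul_pow, ← pow_mul, ← pow_mul, mul_comm 2]
  rw [e4]
  have e5 : (((N ^ K : ℕ) : ℝ) ^ (γ / (4 * ((K : ℝ) + 1)))) ^ 2 ≤ (N : ℝ) ^ (γ / 2) := by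
    have h3 : ((N ^ K : ℕ) : ℝ) = (N : ℝ) ^ (K : ℝ) := by
      push_cast
      rw [Real.rpow_natCast]
    rw [h3, ← Real.rpow_mul hN0.le, ← Real.rpow_natCast, ← Real.rpow_mul hN0.le]
    apply Real.rpow_le_rpow_of_exponent_le hN1
    have hK0 : (0 : ℝ) ≤ K := Nat.cast_nonneg K
    push_cast
    rw [mul_div_assoc', div_mul_eq_mul_div, div_le_div_iff₀ (by positivity) (by norm_num)]
    nlinarith
  have e6 : (m : ℝ) ^ (γ / 2) ≤ (N : ℝ) ^ (γ / 2) :=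
    Real.rpow_le_rpow hm0.le hmN (by positivity)
  calc (C1 ^ 2) ^ m.primeFactors.card *
        (((N ^ K : ℕ) : ℝ) ^ (γ / (4 * ((K : ℝ) + 1)))) ^ 2
      ≤ (C2 * (N : ℝ) ^ (γ / 2)) * (N : ℝ) ^ (γ / 2) := by
        refine mul_le_mul (e2.trans (mul_le_mul_of_nonneg_left e6 (by linarith))) e5
          (by positivity) (by positivity)
    _ = C2 * (N : ℝ) ^ γ := by
        rw [mul_assoc, ← Real.rpow_add hN0]
        congr 2
        ring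

/-- Pairs in triples of the `p`-adic kind with radical dividing `m`. -/
def PPm (κ : ℝ) (q p : ℕ) (m : ℕ) : Set (ℕ × ℕ) :=
  {w | (∃ T, PairP κ q p 1 w.1 w.2 T) ∧ rad (w.1 * w.2) ∣ m}

theorem ppm_card {κ : ℝ} {q p m : ℕ} (hκ0 : 0 < κ) (hκ1 : κ ≤ 1)
    (hq : IsPrimePow q) (hqκ : 100 / κ ^ 2 ≤ q) (hp : p.Prime) (hpq : ¬ p ∣ q) (hm : 0 < m) :
    (PPm κ q p m).Finite ∧ (PPm κ q p m).ncard ≤ (DD m (q - 1)).card * q := by
  refine coverG (DD m (q - 1)) (fun de => {w : ℕ × ℕ | (∃ T, PairP κ q p 1 w.1 w.2 T) ∧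
    lo q w.1 = de.1 ∧ lo q w.2 = de.2}) ?_ _ ?_
  · intro de _
    exact class_card hκ0 hκ1 hq hqκ hp hpq (Or.inl rfl)
  · rintro ⟨s, t⟩ ⟨⟨T, h⟩, hr⟩
    exact ⟨(lo q s, lo q t), mem_DD hq.pos hm h.s0 h.t0 hr, ⟨T, h⟩, rfl, rfl⟩

/-- Pairs in triples of the real kind with radical dividing `m`. -/
def RRm (κ : ℝ) (q m : ℕ) : Set (ℕ × ℕ) :=
  {w | (∃ T, PairR κ q w.1 w.2 T) ∧ rad (w.1 * w.2) ∣ m}

theorem rrm_card {κ : ℝ} {q m : ℕ} (hκ0 : 0 < κ) (hκ1 : κ ≤ 1)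
    (hq : IsPrimePow q) (hqκ : 100 / κ ^ 2 ≤ q) (hm : 0 < m) :
    (RRm κ q m).Finite ∧ (RRm κ q m).ncard ≤ (DD m (q - 1)).card * 1 := by
  refine coverG (DD m (q - 1)) (fun de => {w : ℕ × ℕ | (∃ T, PairR κ q w.1 w.2 T) ∧
    lo q w.1 = de.1 ∧ lo q w.2 = de.2}) ?_ _ ?_
  · intro de _
    have hsub : {w : ℕ × ℕ | (∃ T, PairR κ q w.1 w.2 T) ∧
        lo q w.1 = de.1 ∧ lo q w.2 = de.2}.Subsingleton := by
      rintro ⟨s, t⟩ ⟨⟨T, h⟩, h1, h2⟩ ⟨s', t'⟩ ⟨⟨T', h'⟩, h1', h2'⟩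
      obtain ⟨e1, e2⟩ := unique_rt hκ0 hκ1 hq hqκ h h' (h1.trans h1'.symm) (h2.trans h2'.symm)
      exact Prod.ext e1 e2
    exact ⟨hsub.finite, (Set.ncard_le_one hsub.finite).mpr fun a ha b hb => hsub ha hb⟩
  · rintro ⟨s, t⟩ ⟨⟨T, h⟩, hr⟩
    have ht : 0 < t := by
      have h1 : s + T = t := h.eq
      have h2 : 0 < s := h.s0
      omega
    exact ⟨(lo q s, lo q t), mem_DD hq.pos hm h.s0 ht hr, ⟨T, h⟩, rfl, rfl⟩

/-- `B` has an `S`-unit multiple of a power that is a difference of coprime numbers all of whose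
prime factors divide `m`. -/
def Dif (S : Finset ℕ) (m B : ℕ) : Prop := ∃ y β s t : ℕ, 0 < y ∧ SUnit S β ∧ 0 < s ∧ 0 < t ∧
  Nat.Coprime s t ∧ s + β * B ^ y = t ∧ rad (s * t) ∣ m

theorem each_rad (S : Finset ℕ) (hSp : ∀ p ∈ S, p.Prime) (K : ℕ) (hK : 1 ≤ K) {ε : ℝ}
    (hε : 0 < ε) (hε1 : ε < 1) : ∃ L : ℕ,
    ∀ Y b : ℕ, L ≤ Y → b + Y ≤ Y ^ K → ∃ T0 : Set ℕ, T0 ⊆ Set.Ioc b (b + Y) ∧
      (T0.ncard : ℝ) ≤ ε * Y ∧ ∀ m : ℕ, 0 < m → Squarefree m → m ≤ Y ^ K →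
        (({B : ℕ | B ∈ Set.Ioc b (b + Y) ∧ B ∉ T0 ∧ Dif S m B}.ncard : ℕ) : ℝ) ≤
          (Y : ℝ) ^ ε := by
  classical
  obtain ⟨c, hc⟩ : ∃ c : ℕ, c = S.card := ⟨_, rfl⟩
  have hKR : (1 : ℝ) ≤ K := by exact_mod_cast hK
  have hK0 : (0 : ℝ) < K := by linarith
  set θ : ℝ := ε / (16 * K) with hθ
  have hθ0 : 0 < θ := by positivity
  have hθK : θ * K = ε / 16 := by rw [hθ]; field_simp
  have hθ1 : θ ≤ 1 := by
    rw [hθ, div_le_one (by positivity)]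
    linarith
  obtain ⟨κ₁, hκ0, hκθ, N₁, hN₁⟩ := prime_between (ε := ε / 8) (θ := θ) (by positivity)
    (by positivity) hθ1 K (by linarith)
  have hκ1 : κ₁ ≤ 1 := by linarith
  obtain ⟨κ, hκ⟩ : ∃ κ : ℝ, κ = κ₁ / (8 * (S.card + 1)) := ⟨_, rfl⟩
  have hκ4 : 0 < κ := by rw [hκ]; positivity
  have hκ4' : κ ≤ 1 := by
    rw [hκ, div_le_one (by positivity)]
    have : (0 : ℝ) ≤ S.card := Nat.cast_nonneg _
    linarith
  -- the modulus
  obtain ⟨ϖ, hϖS, hϖp⟩ := Nat.exists_infinite_primes (S.sup id + 1)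
  have hϖ : ∀ ℓ ∈ S, ℓ < ϖ := by
    intro ℓ hℓ
    have : ℓ ≤ S.sup id := Finset.le_sup (f := id) hℓ
    omega
  obtain ⟨k, hk⟩ := pow_unbounded_of_one_lt (100 / κ ^ 2) (by norm_num : (1 : ℝ) < 2)
  set q : ℕ := ϖ ^ (k + 1) with hq
  have hqR : 100 / κ ^ 2 ≤ (q : ℝ) := by
    rw [hq]
    push_cast
    have h1 : (2 : ℝ) ^ k ≤ 2 ^ (k + 1) := pow_le_pow_right₀ (by norm_num) (by omega)
    have h2 : (2 : ℝ) ≤ ϖ := by exact_mod_cast hϖp.two_le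
    have h3 : (2 : ℝ) ^ (k + 1) ≤ (ϖ : ℝ) ^ (k + 1) := pow_le_pow_left₀ (by norm_num) h2 _
    linarith
  have hqp : IsPrimePow q := ⟨ϖ, k + 1, hϖp.prime, by omega, rfl⟩
  have hq2 : 2 ≤ q := by
    calc 2 ≤ ϖ := hϖp.two_le
      _ ≤ ϖ ^ (k + 1) := Nat.le_self_pow (by omega) ϖ
  obtain ⟨C3, hC3, h3⟩ := dd_card q hq2 hθ0
  obtain ⟨C4, hC4, h4⟩ := small_one (q ^ 2) hθ0
  obtain ⟨N₇, h7⟩ := kindsS S hκ0 hκ1 hq2
  rw [← hκ] at h7
  have ht1 : Tendsto (fun N : ℕ => (N : ℝ) ^ κ₁) atTop atTop :=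
    (tendsto_rpow_atTop hκ0).comp tendsto_natCast_atTop_atTop
  have ht2 : Tendsto (fun N : ℕ => (N : ℝ) ^ (ε / 2)) atTop atTop :=
    (tendsto_rpow_atTop (by positivity)).comp tendsto_natCast_atTop_atTop
  have ht3 := Gc.log_pow_le (k := c) (show (0 : ℝ) < ε / 16 by positivity)
    (show (0 : ℝ) < (3 * K) ^ c by positivity)
  have ht4 := Gc.log_pow_le (k := 0) (show (0 : ℝ) < 1 / 2 by norm_num)
    (show (0 : ℝ) < 16 / ε by positivity)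
  set CC : ℝ := (1 + c) * q * C3 + C3 + C4 with hCC
  obtain ⟨N₆, hN₆⟩ := eventually_atTop.mp ((ht1.eventually_ge_atTop (max ϖ (16 / ε + 1))).and
    (((ht2.eventually_ge_atTop CC).and (ht3.and ht4)).and
      (eventually_ge_atTop 3)))
  refine ⟨max N₁ (max N₇ N₆), fun Y b hY hbK => ?_⟩
  simp only [max_le_iff] at hY
  obtain ⟨g1, g7, g6⟩ := hY
  obtain ⟨_, ⟨b2, b4, b5⟩, b3⟩ := hN₆ Y g6
  rw [pow_zero, mul_one] at b5
  set N : ℕ := Y ^ K with hN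
  have hYN : Y ≤ N := Nat.le_self_pow (by omega) Y
  obtain ⟨b1, _, _⟩ := hN₆ N (g6.trans hYN)
  have hb1ϖ : (ϖ : ℝ) ≤ (N : ℝ) ^ κ₁ := (le_max_left _ _).trans b1
  have hb1ε : 16 / ε + 1 ≤ (N : ℝ) ^ κ₁ := (le_max_right _ _).trans b1
  have hNpos : 0 < N := by omega
  have hNR : (0 : ℝ) < N := by exact_mod_cast hNpos
  have hN1 : (1 : ℝ) ≤ N := by exact_mod_cast hNpos
  have hYpos : 0 < Y := by omega
  have hYR : (0 : ℝ) < Y := by exact_mod_cast hYpos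
  have hY1 : (1 : ℝ) ≤ Y := by exact_mod_cast hYpos
  have hNYR : (N : ℝ) ≤ (Y : ℝ) ^ (K : ℝ) := by
    rw [Real.rpow_natCast]
    exact_mod_cast le_rfl
  have hNθ : (N : ℝ) ^ θ ≤ (Y : ℝ) ^ (ε / 16) := by
    calc (N : ℝ) ^ θ ≤ ((Y : ℝ) ^ (K : ℝ)) ^ θ := by gcongr
      _ = (Y : ℝ) ^ (ε / 16) := by
          rw [← Real.rpow_mul hYR.le]; congr 1; rw [← hθK]; ring
  set P : ℕ := ⌊(N : ℝ) ^ θ⌋₊ with hP
  have hPle : (P : ℝ) ≤ (Y : ℝ) ^ (ε / 16) :=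
    (Nat.floor_le (Real.rpow_nonneg hNR.le _)).trans hNθ
  set a : ℕ := ⌊(N : ℝ) ^ κ₁⌋₊ with ha
  have haR : 16 / ε ≤ (a : ℝ) := by
    have := Nat.lt_floor_add_one ((N : ℝ) ^ κ₁)
    rw [← ha] at this
    linarith
  have ha1 : 1 ≤ a := by
    have h1 : (0 : ℝ) < a := lt_of_lt_of_le (by positivity) haR
    exact_mod_cast h1
  set E : ℕ := Nat.log 2 N + 1 with hE
  have hElog : (E : ℝ) ≤ 3 * K * Real.log Y := by
    have hN3 : 3 ≤ N := by omega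
    have e1 : (2 : ℝ) ^ (Nat.log 2 N) ≤ N := by exact_mod_cast Nat.pow_log_le_self 2 (by omega)
    have e2 := Real.log_le_log (by positivity) e1
    rw [Real.log_pow] at e2
    have e3 := Real.log_two_gt_d9
    have e4 : (Nat.log 2 N : ℝ) * (1 / 2) ≤ Nat.log 2 N * Real.log 2 := by
      apply mul_le_mul_of_nonneg_left _ (by positivity)
      linarith
    have e5 : 1 ≤ Real.log N := by
      rw [Real.le_log_iff_exp_le hNR]
      have h1 := Real.exp_one_lt_d9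
      have h2 : (3 : ℝ) ≤ N := by exact_mod_cast hN3
      linarith
    have e6 : Real.log N ≤ K * Real.log Y := by
      rw [← Real.log_rpow hYR]
      exact Real.log_le_log hNR hNYR
    rw [hE]
    push_cast
    linarith
  have hEc : (E : ℝ) ^ c ≤ (Y : ℝ) ^ (ε / 16) := by
    calc (E : ℝ) ^ c ≤ (3 * K * Real.log Y) ^ c := pow_le_pow_left₀ (Nat.cast_nonneg _) hElog c
      _ = (3 * K) ^ c * Real.log Y ^ c := mul_pow _ _ _
      _ ≤ _ := b4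
  -- the pieces
  set T1 : Set ℕ := {B : ℕ | b < B ∧ B ≤ b + Y ∧ ∀ p : ℕ, p.Prime → (N : ℝ) ^ κ₁ < p →
    (p : ℝ) ≤ (N : ℝ) ^ θ → ¬ p ∣ B} with hT1
  set T2 : Set ℕ := {B : ℕ | b < B ∧ B ≤ b + Y ∧ ∃ d : ℕ, a < d ∧ d ≤ P ∧ d ^ 2 ∣ B} with hT2
  have k1 : (T1.ncard : ℝ) ≤ ε / 8 * Y := hN₁ N b Y (g1.trans hYN) le_rfl
  have k2 : (T2.ncard : ℝ) ≤ ε / 8 * Y := by
    refine (sq_count b Y a P ha1).trans ?_
    have h1 : (Y : ℝ) * (a : ℝ)⁻¹ ≤ ε / 16 * Y := by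
      have h2 : (a : ℝ)⁻¹ ≤ ε / 16 := by
        rw [inv_le_comm₀ (lt_of_lt_of_le (by positivity) haR) (by positivity), inv_div]
        exact haR
      calc (Y : ℝ) * (a : ℝ)⁻¹ ≤ Y * (ε / 16) := by gcongr
        _ = _ := by ring
    have h2 : (P : ℝ) ≤ ε / 16 * Y := by
      calc (P : ℝ) ≤ (Y : ℝ) ^ (ε / 16) := hPle
        _ ≤ (Y : ℝ) ^ (1 / 2 : ℝ) := Real.rpow_le_rpow_of_exponent_le hY1 (by linarith)
        _ = ε / 16 * (16 / ε) * (Y : ℝ) ^ (1 / 2 : ℝ) := by field_simp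
        _ ≤ ε / 16 * (Y : ℝ) ^ (1 / 2 : ℝ) * (Y : ℝ) ^ (1 / 2 : ℝ) := by gcongr
        _ = ε / 16 * ((Y : ℝ) ^ (1 / 2 : ℝ) * (Y : ℝ) ^ (1 / 2 : ℝ)) := by ring
        _ = ε / 16 * Y := by
            rw [← Real.rpow_add hYR]
            norm_num
    linarith
  have hT1f : T1.Finite := (Set.finite_Ioc b (b + Y)).subset fun B hB => ⟨hB.1, hB.2.1⟩
  have hT2f : T2.Finite := (Set.finite_Ioc b (b + Y)).subset fun B hB => ⟨hB.1, hB.2.1⟩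
  refine ⟨T1 ∪ T2, ?_, ?_, ?_⟩
  · rintro B (hB | hB)
    · exact ⟨hB.1, hB.2.1⟩
    · exact ⟨hB.1, hB.2.1⟩
  · have h1 : ((T1 ∪ T2).ncard : ℝ) ≤ T1.ncard + T2.ncard := by
      exact_mod_cast Set.ncard_union_le T1 T2
    have hεN : 0 ≤ ε * Y := by positivity
    linarith
  intro m hm0 hmsq hmN
  set D : ℕ := (DD m (q - 1)).card with hD
  have hmθ : (m : ℝ) ^ θ ≤ (N : ℝ) ^ θ := by
    apply Real.rpow_le_rpow (by positivity) _ hθ0.le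
    exact_mod_cast hmN
  have hDle : (D : ℝ) ≤ C3 * (Y : ℝ) ^ (ε / 16) :=
    (h3 m hm0 hmsq).trans (mul_le_mul_of_nonneg_left (hmθ.trans hNθ) (by linarith))
  -- the pairs
  set J3 : Finset ℕ := ((Finset.Icc 1 P) ∪ S).filter (fun p => p.Prime ∧ ¬ p ∣ q) with hJ3
  have hJ3c : J3.card ≤ P + c := by
    rw [hJ3]
    refine (Finset.card_filter_le _ _).trans ((Finset.card_union_le _ _).trans ?_)
    rw [Nat.card_Icc, hc]; omega
  set V : Finset ℕ := (Icc 1 (N ^ (q ^ 2))).filter (fun s => rad s ∣ m) with hV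
  set W5 : Finset (ℕ × ℕ) := V ×ˢ V with hW5
  have hW5c : (W5.card : ℝ) ≤ C4 * (Y : ℝ) ^ (ε / 16) := by
    have h1 := h4 N m hNpos hm0 hmN
    rw [hW5, card_product]
    push_cast
    calc (V.card : ℝ) * V.card = (V.card : ℝ) ^ 2 := by ring
      _ ≤ C4 * (N : ℝ) ^ θ := h1
      _ ≤ _ := mul_le_mul_of_nonneg_left hNθ (by linarith)
  obtain ⟨F, hF1, hF2, hF3, hF4⟩ : ∃ F : Finset (ℕ × ℕ),
      F.card ≤ (P + c) * (D * q) + D * 1 + W5.card ∧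
      (∀ p ∈ J3, ∀ w ∈ PPm κ q p m, w ∈ F) ∧ (∀ w ∈ RRm κ q m, w ∈ F) ∧ W5 ⊆ F := by
    have h1 := coverG J3 (fun p => PPm κ q p m) (by
      intro p hp
      rw [hJ3, Finset.mem_filter] at hp
      exact ppm_card hκ4 hκ4' hqp hqR hp.2.1 hp.2.2 hm0) {w | ∃ p ∈ J3, w ∈ PPm κ q p m}
      (fun w hw => hw)
    have h2 := rrm_card hκ4 hκ4' hqp hqR hm0
    refine ⟨h1.1.toFinset ∪ h2.1.toFinset ∪ W5, ?_, ?_, ?_, ?_⟩
    · have e1 := Finset.card_union_le (h1.1.toFinset ∪ h2.1.toFinset) W5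
      have e2 := Finset.card_union_le h1.1.toFinset h2.1.toFinset
      have e3 : h1.1.toFinset.card ≤ J3.card * (D * q) := by
        rw [← Set.ncard_eq_toFinset_card _ h1.1]
        exact h1.2
      have e4 : h2.1.toFinset.card ≤ D * 1 := by
        rw [← Set.ncard_eq_toFinset_card _ h2.1]
        exact h2.2
      have e5 : J3.card * (D * q) ≤ (P + c) * (D * q) := Nat.mul_le_mul_right _ hJ3c
      omega
    · intro p hp w hw
      apply Finset.mem_union_left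
      apply Finset.mem_union_left
      rw [Set.Finite.mem_toFinset]
      exact ⟨p, hp, hw⟩
    · intro w hw
      apply Finset.mem_union_left
      apply Finset.mem_union_right
      rw [Set.Finite.mem_toFinset]
      exact hw
    · exact Finset.subset_union_right
  set J : Finset ℕ := F.image (fun w => ((w.2 : ℤ) - 1 * w.1).natAbs) with hJ
  have hJc : J.card ≤ (P + c) * (D * q) + D * 1 + W5.card := Finset.card_image_le.trans hF1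
  set U : Set ℕ := {B | ∃ T ∈ J, B ∈ Base S N P T} with hU
  have k3 := coverG J (fun T => Base S N P T) (fun T _ => base_card hSp N P T) U
    (fun B hB => hB)
  -- the covering
  have hsub : {B : ℕ | B ∈ Set.Ioc b (b + Y) ∧ B ∉ T1 ∪ T2 ∧ Dif S m B} ⊆ U := by
    rintro B ⟨⟨hB0', hBN'⟩, hBT, y, β, s, t, hy, hβ, hs, ht, hco, heq, hrad⟩
    have hB0 : 0 < B := by omega
    have hBN : B ≤ N := hBN'.trans hbK
    have hB1 : B ∉ T1 := fun h => hBT (Or.inl h)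
    have hB2 : B ∉ T2 := fun h => hBT (Or.inr h)
    obtain ⟨p, hp, hpl, hpu, hpB⟩ : ∃ p : ℕ, p.Prime ∧ (N : ℝ) ^ κ₁ < p ∧
        (p : ℝ) ≤ (N : ℝ) ^ θ ∧ p ∣ B := by
      by_contra hn
      apply hB1
      exact ⟨hB0', hBN', fun p hp hpl hpu hpB => hn ⟨p, hp, hpl, hpu, hpB⟩⟩
    have hpP : p ≤ P := Nat.le_floor hpu
    have hap : a < p := (Nat.floor_lt (by positivity)).mpr hpl
    have hpϖ : ϖ < p := by
      have : (ϖ : ℝ) < p := lt_of_le_of_lt hb1ϖ hpl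
      exact_mod_cast this
    have hpS : p ∉ S := fun h => by
      have := hϖ p h
      omega
    have hp2 : ¬ p ^ 2 ∣ B := fun h => hB2 ⟨hB0', hBN', p, hap, hpP, h⟩
    have hpq : ¬ p ∣ q := by
      intro h
      have h2 : p ∣ ϖ := hp.dvd_of_dvd_pow h
      have h3 := Nat.le_of_dvd hϖp.pos h2
      omega
    have hradN : rad (s * t) ≤ N := (Nat.le_of_dvd hm0 hrad).trans hmN
    have heq' : (t : ℤ) - 1 * s = ((β * B ^ y : ℕ) : ℤ) := by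
      have h' : (s : ℤ) + ((β * B ^ y : ℕ) : ℤ) = t := by exact_mod_cast heq
      linarith
    have hwF : (s, t) ∈ F := by
      by_cases hbig : N ^ (q ^ 2) ≤ max s t
      · rcases h7 N p B β y s t 1 (g7.trans hYN) hp hpl hpB hB0 hBN hy hβ hs ht hco
          (Or.inl rfl) heq' hradN hbig with h | ⟨ℓ, hℓS, hℓ, h⟩ | ⟨_, h⟩
        · refine hF2 p ?_ (s, t) ⟨⟨_, h⟩, hrad⟩
          rw [hJ3, Finset.mem_filter, Finset.mem_union, Finset.mem_Icc]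
          exact ⟨Or.inl ⟨hp.one_lt.le, hpP⟩, hp, hpq⟩
        · refine hF2 ℓ ?_ (s, t) ⟨⟨_, h⟩, hrad⟩
          rw [hJ3, Finset.mem_filter, Finset.mem_union]
          refine ⟨Or.inr hℓS, hℓ, fun hd => ?_⟩
          have h2 : ℓ ∣ ϖ := hℓ.dvd_of_dvd_pow hd
          have h3 := (Nat.prime_dvd_prime_iff_eq hℓ hϖp).mp h2
          have h4 := hϖ ℓ hℓS
          omega
        · exact hF3 (s, t) ⟨⟨_, h⟩, hrad⟩
      · apply hF4
        rw [not_le, max_lt_iff] at hbig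
        rw [hW5, Finset.mem_product, hV, Finset.mem_filter, Finset.mem_filter, Finset.mem_Icc,
          Finset.mem_Icc]
        exact ⟨⟨⟨hs, hbig.1.le⟩, (Q4.rad_dvd_left hs.ne' ht.ne').trans hrad⟩,
          ⟨⟨ht, hbig.2.le⟩, (Q4.rad_dvd_right hs.ne' ht.ne').trans hrad⟩⟩
    refine ⟨β * B ^ y, ?_, hB0, hBN, ⟨p, hp, hpP, hpS, hpB, hp2⟩, y, β, hy, hβ, rfl⟩
    rw [hJ, Finset.mem_image]
    refine ⟨(s, t), hwF, ?_⟩
    show ((t : ℤ) - 1 * s).natAbs = β * B ^ y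
    rw [heq', Int.natAbs_natCast]
  have c1 := Set.ncard_le_ncard hsub k3.1
  have c6 : ({B : ℕ | B ∈ Set.Ioc b (b + Y) ∧ B ∉ T1 ∪ T2 ∧ Dif S m B}).ncard ≤
      ((P + c) * (D * q) + D * 1 + W5.card) * (P * E ^ c) := by
    have e1 : J.card * (P * E ^ c) ≤ ((P + c) * (D * q) + D * 1 + W5.card) * (P * E ^ c) :=
      Nat.mul_le_mul_right _ hJc
    have e2 := k3.2
    rw [← hE, ← hc] at e2
    omega
  have c7 : ((({B : ℕ | B ∈ Set.Ioc b (b + Y) ∧ B ∉ T1 ∪ T2 ∧ Dif S m B}).ncard : ℕ) : ℝ) ≤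
      ((P + c) * (D * q) + D * 1 + W5.card) * (P * (E : ℝ) ^ c) := by exact_mod_cast c6
  set X : ℝ := (Y : ℝ) ^ (ε / 8) with hX
  have hXpos : 0 < X := Real.rpow_pos_of_pos hYR _
  have hle1 : (Y : ℝ) ^ (ε / 16) ≤ X :=
    Real.rpow_le_rpow_of_exponent_le hY1 (by linarith)
  have hYe1 : (1 : ℝ) ≤ (Y : ℝ) ^ (ε / 16) := Real.one_le_rpow hY1 (by positivity)
  have hYe0 : (0 : ℝ) < (Y : ℝ) ^ (ε / 16) := by positivity
  have hXX : (Y : ℝ) ^ (ε / 16) * (Y : ℝ) ^ (ε / 16) = X := by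
    rw [hX, ← Real.rpow_add hYR]
    congr 1
    ring
  have hc0 : (0 : ℝ) ≤ c := Nat.cast_nonneg c
  have hq0 : (0 : ℝ) ≤ q := Nat.cast_nonneg q
  have d1 : ((P : ℝ) + c) * (D * q) ≤ (1 + c) * q * C3 * X := by
    have e0 : (P : ℝ) + c ≤ (1 + c) * (Y : ℝ) ^ (ε / 16) := by nlinarith
    calc ((P : ℝ) + c) * (D * q) ≤
          ((1 + c) * (Y : ℝ) ^ (ε / 16)) * ((C3 * (Y : ℝ) ^ (ε / 16)) * q) := by
          apply mul_le_mul e0 _ (by positivity) (by positivity)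
          exact mul_le_mul_of_nonneg_right hDle hq0
      _ = (1 + c) * q * C3 * ((Y : ℝ) ^ (ε / 16) * (Y : ℝ) ^ (ε / 16)) := by ring
      _ = _ := by rw [hXX]
  have d2 : (D : ℝ) * 1 ≤ C3 * X := by
    rw [mul_one]
    exact hDle.trans (mul_le_mul_of_nonneg_left hle1 (by linarith))
  have d3 : (W5.card : ℝ) ≤ C4 * X :=
    hW5c.trans (mul_le_mul_of_nonneg_left hle1 (by linarith))
  have d4 : (((P : ℝ) + c) * (D * q) + D * 1 + W5.card) ≤ CC * X := by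
    rw [hCC]
    calc (((P : ℝ) + c) * (D * q) + D * 1 + W5.card) ≤
        ((1 + c) * q * C3 * X + C3 * X + C4 * X) := by linarith
      _ = _ := by ring
  have d5 : (P : ℝ) * (E : ℝ) ^ c ≤ X := by
    rw [← hXX]
    exact mul_le_mul hPle hEc (by positivity) (by positivity)
  have hCC0 : 0 ≤ CC := by
    rw [hCC]
    have h1 : 0 ≤ (1 + c) * q * C3 := by
      have : 0 ≤ C3 := by linarith
      positivity
    linarith
  calc ((({B : ℕ | B ∈ Set.Ioc b (b + Y) ∧ B ∉ T1 ∪ T2 ∧ Dif S m B}).ncard : ℕ) : ℝ) ≤ _ := c7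
    _ ≤ (CC * X) * X := mul_le_mul d4 d5 (by positivity) (by positivity)
    _ ≤ ((Y : ℝ) ^ (ε / 2) * X) * X := by gcongr
    _ = (Y : ℝ) ^ (3 * ε / 4) := by
        rw [hX, ← Real.rpow_add hYR, ← Real.rpow_add hYR]
        congr 1
        ring
    _ ≤ (Y : ℝ) ^ ε := Real.rpow_le_rpow_of_exponent_le hY1 (by linarith)

end Pool.Agent.H755R5.U
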