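import Mathlib
import Pool.Agent.H755R5.G4
import Pool.Agent.H755R5.U1

/-!
Squares: the equation `c (a u ^ x + b v ^ y) = w ^ 2` with `S`-units `a`, `b`, `c` for a pair
`(u, v)` satisfying a residue condition.
-/

set_option autoImplicit false

namespace Pool.Agent.H755R5

open Finset Pool.Agent.H374R2 Pool.Agent.H374R2.Beal Pool.Agent.H755R4.SU

/-- Square residue condition with coefficients `± ∏ ℓ ^ e ℓ`, `ℓ ∈ S`. -/
def Good2S (S : Finset ℕ) (u v : ℕ) : Prop :=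
  ∀ (s : ℤ) (e : ℕ → ℕ) (y : ℕ), (s = 1 ∨ s = -1) → (∀ r : ℕ, r.Prime → r ∣ u → r ∉ S →
    ∃ t : ZMod r, t ^ 2 = (s : ZMod r) * (∏ ℓ ∈ S, (ℓ : ZMod r) ^ e ℓ) * (v : ZMod r) ^ y) →
    s = 1 ∧ 2 ∣ y ∧ ∀ ℓ ∈ S, 2 ∣ e ℓ

theorem good2_of_good4 {S : Finset ℕ} (hS : ∀ ℓ ∈ S, ℓ.Prime) (h2 : 2 ∈ S) {u v : ℕ}
    (hG : Good4S S u v) : Good2S S u v := by
  classical
  intro s e y hs h
  have hss : (s : ℤ) ^ 2 = 1 := by rcases hs with h | h <;> rw [h] <;> norm_num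
  have h1 := hG 1 (fun ℓ => 2 * e ℓ) (2 * y) (Or.inl rfl) (by
    intro r hr hru hrS
    obtain ⟨t, ht⟩ := h r hr hru hrS
    refine ⟨t, ?_⟩
    have e1 : ((s : ℤ) : ZMod r) ^ 2 = 1 := by
      have := congrArg (fun z : ℤ => (z : ZMod r)) hss
      simpa using this
    have e2 : (∏ ℓ ∈ S, (ℓ : ZMod r) ^ (2 * e ℓ)) = (∏ ℓ ∈ S, (ℓ : ZMod r) ^ e ℓ) ^ 2 := by
      rw [← Finset.prod_pow]
      apply Finset.prod_congr rfl
      intro ℓ _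
      rw [← pow_mul, mul_comm]
    rw [e2]
    calc t ^ 4 = (t ^ 2) ^ 2 := by ring
      _ = ((s : ZMod r) * (∏ ℓ ∈ S, (ℓ : ZMod r) ^ e ℓ) * (v : ZMod r) ^ y) ^ 2 := by rw [ht]
      _ = ((s : ℤ) : ZMod r) ^ 2 * (∏ ℓ ∈ S, (ℓ : ZMod r) ^ e ℓ) ^ 2 * (v : ZMod r) ^ (2 * y) := by
          rw [mul_pow, mul_pow, ← pow_mul, mul_comm y 2]
      _ = _ := by rw [e1]; push_cast; ring)
  obtain ⟨-, hy4, he4⟩ := h1
  have hy2 : 2 ∣ y := by omega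
  have he2 : ∀ ℓ ∈ S, 2 ∣ e ℓ := by
    intro ℓ hℓ
    have h5 : 4 ∣ 2 * e ℓ := he4 ℓ hℓ
    omega
  rcases hs with hs | hs
  · exact ⟨hs, hy2, he2⟩
  exfalso
  have h3 := (hG (-1) (fun ℓ => if ℓ = 2 then 2 else 0) 4 (Or.inr rfl) (by
    intro r hr hru hrS
    have : Fact r.Prime := ⟨hr⟩
    obtain ⟨t, ht⟩ := h r hr hru hrS
    have e0 : (∏ ℓ ∈ S, (ℓ : ZMod r) ^ (if ℓ = 2 then 2 else 0)) = 4 := by
      rw [Finset.prod_eq_single 2]
      · rw [if_pos rfl]; push_cast; norm_num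
      · intro ℓ _ hne
        rw [if_neg hne, pow_zero]
      · intro hn; exact absurd h2 hn
    rw [e0]
    by_cases hv : (v : ZMod r) = 0
    · exact ⟨0, by rw [hv]; simp⟩
    set D : ZMod r := (∏ ℓ ∈ S, (ℓ : ZMod r) ^ (e ℓ / 2)) * (v : ZMod r) ^ (y / 2) with hD
    have hne : ∀ ℓ ∈ S, (ℓ : ZMod r) ≠ 0 := by
      intro ℓ hℓ h0
      rw [ZMod.natCast_eq_zero_iff] at h0
      have := (Nat.prime_dvd_prime_iff_eq hr (hS ℓ hℓ)).mp h0
      exact hrS (this ▸ hℓ)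
    have hD0 : D ≠ 0 := by
      rw [hD]
      exact mul_ne_zero (Finset.prod_ne_zero_iff.mpr fun ℓ hℓ => pow_ne_zero _ (hne ℓ hℓ))
        (pow_ne_zero _ hv)
    have hDD : (∏ ℓ ∈ S, (ℓ : ZMod r) ^ e ℓ) * (v : ZMod r) ^ y = D ^ 2 := by
      rw [hD, mul_pow, ← Finset.prod_pow]
      congr 1
      · apply Finset.prod_congr rfl
        intro ℓ hℓ
        rw [← pow_mul, Nat.div_mul_cancel (he2 ℓ hℓ)]
      · rw [← pow_mul, Nat.div_mul_cancel hy2]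
    have ht' : t ^ 2 = -D ^ 2 := by
      rw [ht, hs, ← hDD]; push_cast; ring
    have hi : (t / D) ^ 2 = -1 := by
      rw [div_pow, ht', neg_div, div_self (pow_ne_zero _ hD0)]
    refine ⟨(1 + t / D) * v, ?_⟩
    have e5 : (1 + t / D) ^ 4 = -4 := by
      calc (1 + t / D) ^ 4 = (1 + 2 * (t / D) + (t / D) ^ 2) ^ 2 := by ring
        _ = (2 * (t / D)) ^ 2 := by rw [hi]; ring
        _ = 4 * (t / D) ^ 2 := by ring
        _ = -4 := by rw [hi]; ring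
    rw [mul_pow, e5]
    push_cast
    ring)).1
  norm_num at h3

theorem res2_of_eq {S : Finset ℕ} (hS : ∀ ℓ ∈ S, ℓ.Prime) {u v : ℕ}
    (h1 : Good2S S u v) {x y : ℕ} {a b c w : ℤ} (hx : 0 < x) (hb : IsSU S b)
    (hc : IsSU S c) (h : c * (a * (u : ℤ) ^ x + b * (v : ℤ) ^ y) = w ^ 2) :
    0 < c * b ∧ 2 ∣ y ∧ ∀ ℓ ∈ S, 2 ∣ (c * b).natAbs.factorization ℓ := by
  have hcb := hc.mul hb
  have hs : (c * b).sign = 1 ∨ (c * b).sign = -1 := by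
    rcases lt_trichotomy (c * b) 0 with h0 | h0 | h0
    · exact Or.inr (Int.sign_eq_neg_one_of_neg h0)
    · exact absurd h0 hcb.1
    · exact Or.inl (Int.sign_eq_one_of_pos h0)
  obtain ⟨e1, e2, e3⟩ := h1 (c * b).sign (fun ℓ => (c * b).natAbs.factorization ℓ) y hs (by
    intro r hr hru _
    have hru' : ((u : ℤ) : ZMod r) = 0 := by
      rw [Int.cast_natCast]; exact (ZMod.natCast_eq_zero_iff u r).mpr hru
    have h3 := congrArg (fun z : ℤ => (z : ZMod r)) h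
    simp only [Int.cast_mul, Int.cast_pow, Int.cast_add] at h3
    rw [hru', zero_pow hx.ne', mul_zero, zero_add, Int.cast_natCast] at h3
    have h4 : (((c * b).natAbs : ℕ) : ZMod r) =
        ∏ ℓ ∈ S, (ℓ : ZMod r) ^ (c * b).natAbs.factorization ℓ := by
      have := congrArg (fun z : ℕ => (z : ZMod r)) (hcb.natAbs_eq hS)
      simpa using this
    rw [← h4]
    refine ⟨(w : ZMod r), ?_⟩
    have h5 : (((c * b).sign : ℤ) : ZMod r) * (((c * b).natAbs : ℕ) : ZMod r) =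
        (c : ZMod r) * (b : ZMod r) := by
      have := congrArg (fun z : ℤ => (z : ZMod r)) (Int.sign_mul_natAbs (c * b))
      simp only [Int.cast_mul, Int.cast_natCast] at this
      exact this
    rw [h5, ← h3]
    ring)
  exact ⟨Int.sign_eq_one_iff_pos.mp e1, e2, e3⟩

theorem IsSU.natAbs_pow_two {S : Finset ℕ} (hS : ∀ ℓ ∈ S, ℓ.Prime) {a : ℤ}
    (ha : IsSU S a) (h : ∀ ℓ ∈ S, 2 ∣ a.natAbs.factorization ℓ) :
    ∃ a₁ : ℕ, SUnit S a₁ ∧ a.natAbs = a₁ ^ 2 := by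
  have h1 : a.natAbs = (∏ ℓ ∈ S, ℓ ^ (a.natAbs.factorization ℓ / 2)) ^ 2 := by
    rw [← Finset.prod_pow]
    conv_lhs => rw [ha.natAbs_eq hS]
    apply Finset.prod_congr rfl
    intro ℓ hℓ
    rw [← pow_mul, Nat.div_mul_cancel (h ℓ hℓ)]
  refine ⟨_, ⟨?_, ?_⟩, h1⟩
  · exact Finset.prod_pos fun ℓ hℓ => pow_pos (hS ℓ hℓ).pos _
  · intro p hp hd
    apply ha.2 p hp
    rw [Int.natCast_dvd, h1]
    exact dvd_pow hd (by norm_num)

/-- For typical pairs the equation becomes a Pythagorean equation. -/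
theorem sq_main {S : Finset ℕ} (hS : ∀ ℓ ∈ S, ℓ.Prime) {u v : ℕ}
    (h1 : Good2S S u v) (h2 : Good2S S v u) {x y : ℕ} {a b c w : ℤ} (hx : 0 < x) (hy : 0 < y)
    (ha : IsSU S a) (hb : IsSU S b) (hc : IsSU S c)
    (hco : IsCoprime (a * (u : ℤ) ^ x) (b * (v : ℤ) ^ y))
    (h : c * (a * (u : ℤ) ^ x + b * (v : ℤ) ^ y) = w ^ 2) :
    ∃ x' y' α β W : ℕ, 0 < x' ∧ 0 < y' ∧ SUnit S α ∧ SUnit S β ∧
      Nat.Coprime (α * u ^ x') (β * v ^ y') ∧ (α * u ^ x') ^ 2 + (β * v ^ y') ^ 2 = W ^ 2 := by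
  obtain ⟨hcb, hqy, hvb⟩ := res2_of_eq hS h1 hx hb hc h
  obtain ⟨hca, hqx, hva⟩ := res2_of_eq (x := y) (y := x) (a := b) (b := a) hS h2 hy ha hc
    (by rw [← h]; ring)
  have hval : ∀ ℓ ∈ S, 2 ∣ a.natAbs.factorization ℓ ∧ 2 ∣ b.natAbs.factorization ℓ ∧
      2 ∣ c.natAbs.factorization ℓ := by
    intro ℓ hℓ
    have hp := hS ℓ hℓ
    have e1 := hvb ℓ hℓ
    have e2 := hva ℓ hℓ
    have hc0 : c.natAbs ≠ 0 := Int.natAbs_ne_zero.mpr hc.1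
    have hb0 : b.natAbs ≠ 0 := Int.natAbs_ne_zero.mpr hb.1
    have ha0 : a.natAbs ≠ 0 := Int.natAbs_ne_zero.mpr ha.1
    rw [Int.natAbs_mul, Nat.factorization_mul hc0 hb0, Finsupp.coe_add, Pi.add_apply] at e1
    rw [Int.natAbs_mul, Nat.factorization_mul hc0 ha0, Finsupp.coe_add, Pi.add_apply] at e2
    have e3 : a.natAbs.factorization ℓ = 0 ∨ b.natAbs.factorization ℓ = 0 := by
      by_contra hcon
      push Not at hcon
      have f1 : ℓ ∣ a.natAbs := (hp.dvd_iff_one_le_factorization ha0).mpr (by omega)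
      have f2 : ℓ ∣ b.natAbs := (hp.dvd_iff_one_le_factorization hb0).mpr (by omega)
      have f3 : (ℓ : ℤ) ∣ a * (u : ℤ) ^ x := (Int.natCast_dvd.mpr f1).mul_right _
      have f4 : (ℓ : ℤ) ∣ b * (v : ℤ) ^ y := (Int.natCast_dvd.mpr f2).mul_right _
      have f5 := hco.isUnit_of_dvd' f3 f4
      have f6 := Int.isUnit_iff_natAbs_eq.mp f5
      rw [Int.natAbs_natCast] at f6
      exact hp.one_lt.ne' f6
    rcases e3 with e3 | e3
    · rw [e3, add_zero] at e2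
      exact ⟨e3 ▸ dvd_zero 2, (Nat.dvd_add_right e2).mp e1, e2⟩
    · rw [e3, add_zero] at e1
      exact ⟨(Nat.dvd_add_right e1).mp e2, e3 ▸ dvd_zero 2, e1⟩
  obtain ⟨a₁, ha₁, ha4⟩ := ha.natAbs_pow_two hS (fun ℓ hℓ => (hval ℓ hℓ).1)
  obtain ⟨b₁, hb₁, hb4⟩ := hb.natAbs_pow_two hS (fun ℓ hℓ => (hval ℓ hℓ).2.1)
  obtain ⟨c₁, hc₁, hc4⟩ := hc.natAbs_pow_two hS (fun ℓ hℓ => (hval ℓ hℓ).2.2)
  obtain ⟨x', rfl⟩ := hqx
  obtain ⟨y', rfl⟩ := hqy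
  have hca' : ((c.natAbs * a.natAbs : ℕ) : ℤ) = c * a := by
    rw [← Int.natAbs_mul, Int.natCast_natAbs, abs_of_pos hca]
  have hcb' : ((c.natAbs * b.natAbs : ℕ) : ℤ) = c * b := by
    rw [← Int.natAbs_mul, Int.natCast_natAbs, abs_of_pos hcb]
  have hnat : (c₁ * (a₁ * u ^ x')) ^ 2 + (c₁ * (b₁ * v ^ y')) ^ 2 = w.natAbs ^ 2 := by
    have e1 : ((c₁ * (a₁ * u ^ x')) ^ 2 + (c₁ * (b₁ * v ^ y')) ^ 2 : ℕ) =
        c.natAbs * a.natAbs * u ^ (2 * x') + c.natAbs * b.natAbs * v ^ (2 * y') := by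
      rw [ha4, hb4, hc4, mul_comm 2 x', mul_comm 2 y', pow_mul, pow_mul]
      ring
    have e2 : ((c.natAbs * a.natAbs * u ^ (2 * x') + c.natAbs * b.natAbs * v ^ (2 * y') : ℕ) : ℤ) =
        ((w.natAbs ^ 2 : ℕ) : ℤ) := by
      have e3 : ((w.natAbs ^ 2 : ℕ) : ℤ) = w ^ 2 := by
        push_cast
        rw [sq_abs]
      rw [e3, ← h, Nat.cast_add, Nat.cast_mul (c.natAbs * a.natAbs), Nat.cast_mul (c.natAbs * b.natAbs),
        hca', hcb']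
      push_cast
      ring
    rw [e1]
    exact_mod_cast e2
  have hcw : c₁ ∣ w.natAbs := by
    rw [← Nat.pow_dvd_pow_iff (show (2 : ℕ) ≠ 0 by norm_num), ← hnat]
    exact ⟨(a₁ * u ^ x') ^ 2 + (b₁ * v ^ y') ^ 2, by ring⟩
  obtain ⟨W, hW⟩ := hcw
  refine ⟨x', y', a₁, b₁, W, ?_, ?_, ha₁, hb₁, ?_, ?_⟩
  · omega
  · omega
  · have e1 : (a * (u : ℤ) ^ (2 * x')).natAbs = (a₁ * u ^ x') ^ 2 := by
      rw [Int.natAbs_mul, ha4, Int.natAbs_pow, Int.natAbs_natCast, mul_pow, mul_comm 2 x', pow_mul]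
    have e2 : (b * (v : ℤ) ^ (2 * y')).natAbs = (b₁ * v ^ y') ^ 2 := by
      rw [Int.natAbs_mul, hb4, Int.natAbs_pow, Int.natAbs_natCast, mul_pow, mul_comm 2 y', pow_mul]
    have e3 := Int.isCoprime_iff_gcd_eq_one.mp hco
    rw [Int.gcd_eq_natAbs, e1, e2] at e3
    exact (Nat.coprime_pow_left_iff (by norm_num) _ _).mp
      ((Nat.coprime_pow_right_iff (by norm_num) _ _).mp e3)
  · have e1 : c₁ ^ 2 * ((a₁ * u ^ x') ^ 2 + (b₁ * v ^ y') ^ 2) = c₁ ^ 2 * W ^ 2 := by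
      have e2 : c₁ ^ 2 * W ^ 2 = w.natAbs ^ 2 := by rw [hW]; ring
      rw [e2, ← hnat]
      ring
    exact Nat.eq_of_mul_eq_mul_left (pow_pos hc₁.1 2) e1

/-- a primitive Pythagorean equation as a sum of two coprime numbers -/
theorem pyth {X Y W : ℕ} (hX : 0 < X) (hY : 0 < Y) (hco : Nat.Coprime X Y)
    (h : X ^ 2 + Y ^ 2 = W ^ 2) : ∃ g s t : ℕ, (g = 1 ∨ g = 2) ∧ 0 < s ∧ 0 < t ∧
      Nat.Coprime s t ∧ s + g * Y = t ∧ ∀ p : ℕ, p.Prime → p ∣ s * t → p ∣ X := by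
  have hWY : Y < W := by
    by_contra hcon
    have h1 : W ≤ Y := by omega
    have h2 : W ^ 2 ≤ Y ^ 2 := Nat.pow_le_pow_left h1 2
    have h3 : 0 < X ^ 2 := pow_pos hX 2
    omega
  obtain ⟨p, rfl⟩ : ∃ p, W = Y + p := ⟨W - Y, by omega⟩
  have hp0 : 0 < p := by omega
  have hpX : p * (p + 2 * Y) = X ^ 2 := by
    have : (Y + p) ^ 2 = Y ^ 2 + p * (p + 2 * Y) := by ring
    omega
  have hpY : Nat.Coprime p Y := by
    rw [Nat.coprime_iff_gcd_eq_one]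
    by_contra hn
    obtain ⟨ℓ, hℓ, hd⟩ := Nat.exists_prime_and_dvd hn
    have h1 : ℓ ∣ p := hd.trans (Nat.gcd_dvd_left _ _)
    have h2 : ℓ ∣ Y := hd.trans (Nat.gcd_dvd_right _ _)
    have h3 : ℓ ∣ X ^ 2 := by rw [← hpX]; exact h1.mul_right _
    have h4 : ℓ ∣ X := hℓ.dvd_of_dvd_pow h3
    have h5 : ℓ ∣ 1 := by
      have := Nat.dvd_gcd h4 h2
      rwa [hco] at this
    exact hℓ.one_lt.ne' (Nat.dvd_one.mp h5)
  rcases Nat.even_or_odd p with hev | hodd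
  · obtain ⟨p', hp'⟩ := hev
    have hp2 : p = 2 * p' := by omega
    have hp'Y : Nat.Coprime p' Y := Nat.Coprime.coprime_dvd_left ⟨2, by omega⟩ hpY
    refine ⟨1, p', p' + Y, Or.inl rfl, by omega, by omega, ?_, by omega, ?_⟩
    · rw [Nat.coprime_self_add_right]
      exact hp'Y
    · intro ℓ hℓ hd
      apply hℓ.dvd_of_dvd_pow (n := 2)
      rw [← hpX, hp2]
      have : 2 * p' * (2 * p' + 2 * Y) = p' * (p' + Y) * 4 := by ring
      rw [this]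
      exact hd.mul_right _
  · refine ⟨2, p, p + 2 * Y, Or.inr rfl, hp0, by omega, ?_, rfl, ?_⟩
    · rw [Nat.coprime_self_add_right]
      exact Nat.Coprime.mul_right (Nat.coprime_two_right.mpr hodd) hpY
    · intro ℓ hℓ hd
      apply hℓ.dvd_of_dvd_pow (n := 2)
      rw [← hpX]
      exact hd

open Pool.Agent.H374R2.Z in
/-- the conclusion in the form needed for counting -/
theorem dif_of {S : Finset ℕ} (hS : ∀ ℓ ∈ S, ℓ.Prime) (h2S : 2 ∈ S) {u v : ℕ} (hu : 0 < u)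
    (hv : 0 < v) (h1 : Good2S S u v) (h2 : Good2S S v u) {x y : ℕ} {a b c w : ℤ} (hx : 0 < x)
    (hy : 0 < y) (ha : IsSU S a) (hb : IsSU S b) (hc : IsSU S c)
    (hco : IsCoprime (a * (u : ℤ) ^ x) (b * (v : ℤ) ^ y))
    (h : c * (a * (u : ℤ) ^ x + b * (v : ℤ) ^ y) = w ^ 2) :
    U.Dif S (rad ((∏ ℓ ∈ S, ℓ) * u)) v := by
  obtain ⟨x', y', α, β, W, hx', hy', hα, hβ, hcop, heq⟩ := sq_main hS h1 h2 hx hy ha hb hc hco h
  obtain ⟨g, s, t, hg, hs, ht, hst, he, hp⟩ := pyth (Nat.mul_pos hα.1 (pow_pos hu _))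
    (Nat.mul_pos hβ.1 (pow_pos hv _)) hcop heq
  refine ⟨y', g * β, s, t, hy', ⟨?_, ?_⟩, hs, ht, hst, ?_, ?_⟩
  · rcases hg with h | h <;> rw [h] <;> have := hβ.1 <;> omega
  · intro p hpp hpd
    rcases (hpp.dvd_mul).mp hpd with h | h
    · rcases hg with hg | hg
      · rw [hg] at h
        exact absurd (Nat.dvd_one.mp h) hpp.one_lt.ne'
      · rw [hg] at h
        rw [(Nat.prime_dvd_prime_iff_eq hpp Nat.prime_two).mp h]
        exact h2S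
    · exact hβ.2 p hpp h
  · rw [← he]; ring
  · unfold rad
    apply Finset.prod_dvd_prod_of_subset
    intro p hpm
    have hpm' := Nat.mem_primeFactors.mp hpm
    have hprod : (∏ ℓ ∈ S, ℓ) * u ≠ 0 :=
      mul_ne_zero (Finset.prod_ne_zero_iff.mpr fun ℓ hℓ => (hS ℓ hℓ).ne_zero) hu.ne'
    refine Nat.mem_primeFactors.mpr ⟨hpm'.1, ?_, hprod⟩
    have h3 := hp p hpm'.1 hpm'.2.1
    rcases (hpm'.1.dvd_mul).mp h3 with h4 | h4
    · exact (Finset.dvd_prod_of_mem _ (hα.2 p hpm'.1 h4)).mul_right u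
    · exact (hpm'.1.dvd_of_dvd_pow h4).mul_left _

end Pool.Agent.H755R5
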