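import Mathlib
import Pool.Agent.H755R5.E2
import Pool.Agent.H755R4.Fin

/-!
Even third exponents: counting, in boxes whose position is polynomially bounded in the longer side.
-/

set_option autoImplicit false

namespace Pool.Agent.H755R5

open Finset Filter Topology Pool.Agent.H374R2 Pool.Agent.H374R2.Beal Pool.Agent.H755R4
  Pool.Agent.H755R4.SU
open Pool.Agent.H374R2.Z (rad)

/-- the pairs with a solution of `c (a u ^ x + b v ^ y) = w ^ 2` in coprime terms -/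
def E0 (T : Finset ℕ) : Set (ℕ × ℕ) := {p | 0 < p.1 ∧ 0 < p.2 ∧ ∃ (a b c w : ℤ) (x y : ℕ),
  0 < x ∧ 0 < y ∧ IsSU T a ∧ IsSU T b ∧ IsSU T c ∧
    IsCoprime (a * (p.1 : ℤ) ^ x) (b * (p.2 : ℤ) ^ y) ∧
    c * (a * (p.1 : ℤ) ^ x + b * (p.2 : ℤ) ^ y) = w ^ 2}

theorem e0_swap {T : Finset ℕ} {u v : ℕ} (h : (u, v) ∈ E0 T) : (v, u) ∈ E0 T := by
  obtain ⟨hu, hv, a, b, c, w, x, y, hx, hy, ha, hb, hc, hco, h⟩ := h
  exact ⟨hv, hu, b, a, c, w, y, x, hy, hx, hb, ha, hc, hco.symm, by rw [← h]; ring⟩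

theorem half_sq {T : Finset ℕ} (hT : ∀ ℓ ∈ T, ℓ.Prime) (h2T : 2 ∈ T)
    (hnull : UniformNull {p | ¬ Good4S T p.1 p.2}) (K : ℕ) {ε : ℝ} (hε : 0 < ε) :
    ∃ L : ℕ, ∀ X Y : ℕ, L ≤ X → X ≤ Y → ∀ a b : ℕ,
    a ≤ Y ^ K → b ≤ Y ^ K →
      ((E0 T ∩ (Set.Ioc a (a + X) ×ˢ Set.Ioc b (b + Y))).ncard : ℝ) ≤ ε * (X * Y) := by
  set δ : ℝ := min (ε / 8) (1 / 2) with hδ
  have hδ0 : 0 < δ := lt_min (by positivity) (by norm_num)
  have hδ1 : δ < 1 := lt_of_le_of_lt (min_le_right _ _) (by norm_num)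
  have hδε : δ ≤ ε / 8 := min_le_left _ _
  have hδ2 : δ ≤ 1 / 2 := min_le_right _ _
  set M₀ : ℕ := ∏ ℓ ∈ T, ℓ with hM₀
  have hM₀pos : 0 < M₀ := Finset.prod_pos fun ℓ hℓ => (hT ℓ hℓ).pos
  obtain ⟨L₁, hcore⟩ := U.each_rad T hT (K + 3) (by omega) hδ0 hδ1
  obtain ⟨L₂, hsm⟩ := (hnull.union hnull.swap) (ε / 2) (by positivity)
  have e1 := Gc.log_pow_le (k := 0) (show (0 : ℝ) < 1 / 2 by norm_num)
    (show (0 : ℝ) < 8 / ε by positivity)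
  obtain ⟨L₃, hL₃⟩ := eventually_atTop.mp e1
  refine ⟨max L₁ (max L₂ (max L₃ (max 2 M₀))), fun X Y hX hXY a b ha hb => ?_⟩
  simp only [max_le_iff] at hX
  obtain ⟨hX1, hX2, hX3, hX4, hX5⟩ := hX
  have hY2 : 2 ≤ Y := by omega
  have hYR : (0 : ℝ) < Y := by exact_mod_cast (by omega : 0 < Y)
  have hY1R : (1 : ℝ) ≤ Y := by exact_mod_cast (by omega : 1 ≤ Y)
  have hXR : (0 : ℝ) ≤ X := Nat.cast_nonneg X
  have hYhalf : 8 / ε ≤ (Y : ℝ) ^ (1 / 2 : ℝ) := by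
    have := hL₃ Y (by omega)
    rwa [pow_zero, mul_one] at this
  have hNK : Y ^ K + Y ≤ Y ^ (K + 2) := by
    have h1 : Y ^ K ≤ Y ^ (K + 1) := Nat.pow_le_pow_right (by omega) (by omega)
    have h2 : Y ≤ Y ^ (K + 1) := Nat.le_self_pow (by omega) Y
    have h3 : Y ^ (K + 2) = Y ^ (K + 1) * Y := pow_succ _ _
    calc Y ^ K + Y ≤ Y ^ (K + 1) * 2 := by omega
      _ ≤ Y ^ (K + 1) * Y := Nat.mul_le_mul_left _ hY2
      _ = _ := h3.symm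
  have hNK3 : M₀ * (Y ^ K + Y) ≤ Y ^ (K + 3) := by
    calc M₀ * (Y ^ K + Y) ≤ Y * Y ^ (K + 2) := Nat.mul_le_mul (by omega) hNK
      _ = Y ^ (K + 3) := by rw [mul_comm, ← pow_succ]
  have hbY : b + Y ≤ Y ^ (K + 3) := by
    have h1 : 1 * (Y ^ K + Y) ≤ M₀ * (Y ^ K + Y) := Nat.mul_le_mul_right _ hM₀pos
    omega
  obtain ⟨T0, hTsub, hTc, hT0⟩ := hcore Y b (by omega) hbY
  have hTfin : T0.Finite := (Set.finite_Ioc b (b + Y)).subset hTsub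
  set E' : Set (ℕ × ℕ) := {p | U.Dif T (rad (M₀ * p.1)) p.2} with hE'
  have hfib : ∀ A ∈ Set.Ioc a (a + X),
      (({B : ℕ | B ∈ Set.Ioc b (b + Y) ∧ (A, B) ∈ E'}.ncard : ℕ) : ℝ) ≤ ε / 4 * Y := by
    intro A hA
    have hA0 : 0 < A := lt_of_le_of_lt (Nat.zero_le _) hA.1
    have hAN : A ≤ Y ^ K + Y := by
      have := hA.2
      omega
    have hrf := Pool.Agent.H374R2.Z.RF.rad_facts
    have hMA : 0 < M₀ * A := Nat.mul_pos hM₀pos hA0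
    have h1 := hT0 (rad (M₀ * A)) (hrf.1 _) (hrf.2.2.1 _)
      ((Nat.le_of_dvd hMA (hrf.2.1 _)).trans ((Nat.mul_le_mul_left _ hAN).trans hNK3))
    set F : Set ℕ := {B : ℕ | B ∈ Set.Ioc b (b + Y) ∧ B ∉ T0 ∧ U.Dif T (rad (M₀ * A)) B} with hF
    have hFfin : F.Finite := (Set.finite_Ioc b (b + Y)).subset (fun B hB => hB.1)
    have hsub : {B : ℕ | B ∈ Set.Ioc b (b + Y) ∧ (A, B) ∈ E'} ⊆ T0 ∪ F := by
      rintro B ⟨h2, h3⟩
      by_cases hBT : B ∈ T0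
      · exact Or.inl hBT
      · exact Or.inr ⟨h2, hBT, h3⟩
    have h2 := (Set.ncard_le_ncard hsub (hTfin.union hFfin)).trans (Set.ncard_union_le T0 F)
    have h3 : (({B : ℕ | B ∈ Set.Ioc b (b + Y) ∧ (A, B) ∈ E'}.ncard : ℕ) : ℝ) ≤
        T0.ncard + F.ncard := by exact_mod_cast h2
    have h4 : (Y : ℝ) ^ δ ≤ ε / 8 * Y := by
      calc (Y : ℝ) ^ δ ≤ (Y : ℝ) ^ (1 / 2 : ℝ) := Real.rpow_le_rpow_of_exponent_le hY1R hδ2
        _ = ε / 8 * (8 / ε) * (Y : ℝ) ^ (1 / 2 : ℝ) := by field_simp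
        _ ≤ ε / 8 * (Y : ℝ) ^ (1 / 2 : ℝ) * (Y : ℝ) ^ (1 / 2 : ℝ) := by gcongr
        _ = ε / 8 * ((Y : ℝ) ^ (1 / 2 : ℝ) * (Y : ℝ) ^ (1 / 2 : ℝ)) := by ring
        _ = ε / 8 * Y := by
            rw [← Real.rpow_add hYR]
            norm_num
    have h5 : δ * Y ≤ ε / 8 * Y := by gcongr
    linarith
  have hbig := box_ncard_fiber hfib
  have hsmall := hsm X Y hX2 (by omega) a b
  set Nul : Set (ℕ × ℕ) := {p | ¬ Good4S T p.1 p.2} ∪ Prod.swap ⁻¹' {p | ¬ Good4S T p.1 p.2}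
    with hNul
  have hsub : E0 T ∩ (Set.Ioc a (a + X) ×ˢ Set.Ioc b (b + Y)) ⊆
      (Nul ∩ (Set.Ioc a (a + X) ×ˢ Set.Ioc b (b + Y))) ∪
        (E' ∩ (Set.Ioc a (a + X) ×ˢ Set.Ioc b (b + Y))) := by
    rintro ⟨u, v⟩ ⟨⟨hu, hv, ca, cb, c, w, x, y, hx, hy, ha', hb', hc', hco, h⟩, hbox⟩
    by_cases hN : (u, v) ∈ Nul
    · exact Or.inl ⟨hN, hbox⟩
    · refine Or.inr ⟨?_, hbox⟩
      rw [hNul] at hN
      simp only [Set.mem_union, Set.mem_ofPred_eq, Set.mem_preimage, Prod.swap_prod_mk, not_or,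
        not_not] at hN
      exact dif_of hT h2T hu hv (good2_of_good4 hT h2T hN.1) (good2_of_good4 hT h2T hN.2) hx hy
        ha' hb' hc' hco h
  have hbf := Beal.box_finite a b X Y
  have h1 := (Set.ncard_le_ncard hsub ((hbf.subset Set.inter_subset_right).union
    (hbf.subset Set.inter_subset_right))).trans (Set.ncard_union_le _ _)
  have h2 : ((E0 T ∩ (Set.Ioc a (a + X) ×ˢ Set.Ioc b (b + Y))).ncard : ℝ) ≤
      (Nul ∩ (Set.Ioc a (a + X) ×ˢ Set.Ioc b (b + Y))).ncard +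
        (E' ∩ (Set.Ioc a (a + X) ×ˢ Set.Ioc b (b + Y))).ncard := by exact_mod_cast h1
  have h3 : (X : ℝ) * (ε / 4 * Y) = ε / 4 * (X * Y) := by ring
  have h4 : (0 : ℝ) ≤ ε * (X * Y) := by positivity
  rw [h3] at hbig
  linarith

theorem boxes_sq {T : Finset ℕ} (hT : ∀ ℓ ∈ T, ℓ.Prime) (h2T : 2 ∈ T)
    (hnull : UniformNull {p | ¬ Good4S T p.1 p.2}) (K : ℕ) {ε : ℝ} (hε : 0 < ε) :
    ∃ L : ℕ, ∀ X Y : ℕ, L ≤ X → L ≤ Y → ∀ a b : ℕ,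
    a ≤ (max X Y) ^ K → b ≤ (max X Y) ^ K →
      ((E0 T ∩ (Set.Ioc a (a + X) ×ˢ Set.Ioc b (b + Y))).ncard : ℝ) ≤ ε * (X * Y) := by
  obtain ⟨L, hL⟩ := half_sq hT h2T hnull K hε
  refine ⟨L, fun X Y hX hY a b ha hb => ?_⟩
  rcases le_total X Y with hXY | hXY
  · rw [max_eq_right hXY] at ha hb
    exact hL X Y hX hXY a b ha hb
  · rw [max_eq_left hXY] at ha hb
    have h := hL Y X hY hXY b a hb ha
    have hsub : E0 T ∩ (Set.Ioc a (a + X) ×ˢ Set.Ioc b (b + Y)) ⊆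
        Prod.swap '' (E0 T ∩ (Set.Ioc b (b + Y) ×ˢ Set.Ioc a (a + X))) := by
      rintro ⟨A, B⟩ ⟨h0, h1, h2⟩
      exact ⟨(B, A), ⟨e0_swap h0, h2, h1⟩, rfl⟩
    have hfin : (E0 T ∩ (Set.Ioc b (b + Y) ×ˢ Set.Ioc a (a + X))).Finite :=
      (Beal.box_finite b a Y X).subset Set.inter_subset_right
    have h3 := (Set.ncard_le_ncard hsub (hfin.image _)).trans (Set.ncard_image_le hfin)
    calc ((E0 T ∩ (Set.Ioc a (a + X) ×ˢ Set.Ioc b (b + Y))).ncard : ℝ) ≤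
        (E0 T ∩ (Set.Ioc b (b + Y) ×ˢ Set.Ioc a (a + X))).ncard := by exact_mod_cast h3
      _ ≤ ε * (Y * X) := h
      _ = ε * (X * Y) := by ring

/-- an `S`-solution with even third exponent gives an element of `E0` -/
theorem mem_e0 {T : Finset ℕ} {A B C X Y Z : ℤ} {u v p p' n : ℕ} (hp : 0 < p) (hp' : 0 < p')
    (hA : IsSU T A) (hB : IsSU T B) (hC : IsSU T C) (hX0 : X ≠ 0) (hY0 : Y ≠ 0)
    (hX : X.natAbs = u) (hY : Y.natAbs = v) (hn : 2 ∣ n)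
    (hco : IsCoprime (A * X ^ p) (B * Y ^ p')) (heq : A * X ^ p + B * Y ^ p' = C * Z ^ n) :
    (u, v) ∈ E0 T := by
  obtain ⟨A', hA', e1⟩ := sign_move hA hX p
  obtain ⟨B', hB', e2⟩ := sign_move hB hY p'
  obtain ⟨k, rfl⟩ := hn
  rw [e1, e2] at hco heq
  have hu : 0 < u := by rw [← hX]; exact Int.natAbs_pos.mpr hX0
  have hv : 0 < v := by rw [← hY]; exact Int.natAbs_pos.mpr hY0
  refine ⟨hu, hv, A', B', C, C * Z ^ k, p, p', hp, hp', hA', hB', hC, hco, ?_⟩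
  simp only
  rw [heq, mul_pow, ← pow_mul, mul_comm k 2]
  ring

/-- `m` is divisible by some `n` with `2 ≤ n ≤ R` -/
def SmallDvd (R m : ℕ) : Prop := ∃ n : ℕ, 2 ≤ n ∧ n ≤ R ∧ n ∣ m

/-- the pairs of bases of an `S`-solution whose third exponent is divisible by some `n` with
`2 ≤ n ≤ R` -/
def ExcA (S : Finset ℕ) (R : ℕ) : Set (ℕ × ℕ) :=
  {w | ∃ (a b c x y z : ℤ) (p q r : ℕ), SSol S a b c x y z p q r ∧
    ((x.natAbs = w.1 ∧ y.natAbs = w.2 ∧ SmallDvd R r) ∨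
     (x.natAbs = w.1 ∧ z.natAbs = w.2 ∧ SmallDvd R q) ∨
     (y.natAbs = w.1 ∧ z.natAbs = w.2 ∧ SmallDvd R p))}

theorem smallDvd_or {R m : ℕ} (h : SmallDvd R m) : 2 ∣ m ∨ MidDvd R m := by
  obtain ⟨n, h2, hR, hd⟩ := h
  rcases Nat.lt_or_ge 2 n with h | h
  · exact Or.inr ⟨n, h, hR, hd⟩
  · left
    have : n = 2 := by omega
    rwa [this] at hd

theorem excA_sub (S : Finset ℕ) (R : ℕ) :
    ExcA S R ⊆ ExcM S R ∪ E0 (insert 2 (S.filter Nat.Prime)) := by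
  classical
  set T : Finset ℕ := insert 2 (S.filter Nat.Prime) with hT
  rintro ⟨u, v⟩ ⟨a, b, c, x, y, z, p, q, r, hsol, hcase⟩
  have hsol' := hsol
  obtain ⟨hp, hq, hr, ha, hb, hc, hx, hy, hz, hS, hgcd, heq⟩ := hsol
  simp only at hcase
  obtain ⟨g1, g2, g3⟩ := gcd_one hgcd heq
  have hmono : ∀ ℓ ∈ S, ℓ.Prime → ℓ ∈ T := fun ℓ h1 h2 =>
    Finset.mem_insert_of_mem (Finset.mem_filter.mpr ⟨h1, h2⟩)
  have hSa : IsSU T a :=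
    isSU_mono hmono ⟨ha, fun ℓ hℓ h => hS ℓ hℓ ((h.mul_right b).mul_right c)⟩
  have hSb : IsSU T b :=
    isSU_mono hmono ⟨hb, fun ℓ hℓ h => hS ℓ hℓ ((h.mul_left a).mul_right c)⟩
  have hSc : IsSU T c :=
    isSU_mono hmono ⟨hc, fun ℓ hℓ h => hS ℓ hℓ (h.mul_left (a * b))⟩
  rcases hcase with ⟨hxu, hyv, hm⟩ | ⟨hxu, hzv, hm⟩ | ⟨hyu, hzv, hm⟩
  · rcases smallDvd_or hm with h2 | hmid
    · exact Or.inr (mem_e0 hp hq hSa hSb hSc hx hy hxu hyv h2 g1 heq)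
    · exact Or.inl ⟨a, b, c, x, y, z, p, q, r, hsol', Or.inl ⟨hxu, hyv, hmid⟩⟩
  · rcases smallDvd_or hm with h2 | hmid
    · refine Or.inr (mem_e0 (A := a) (B := -c) (C := -b) (X := x) (Y := z) (Z := y) hp hr
        hSa (isSU_neg hSc) (isSU_neg hSb) hx hz hxu hzv h2 ?_ ?_)
      · rw [neg_mul]
        exact g2.neg_right
      · linear_combination heq
    · exact Or.inl ⟨a, b, c, x, y, z, p, q, r, hsol', Or.inr (Or.inl ⟨hxu, hzv, hmid⟩)⟩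
  · rcases smallDvd_or hm with h2 | hmid
    · refine Or.inr (mem_e0 (A := b) (B := -c) (C := -a) (X := y) (Y := z) (Z := x) hq hr
        hSb (isSU_neg hSc) (isSU_neg hSa) hy hz hyu hzv h2 ?_ ?_)
      · rw [neg_mul]
        exact g3.neg_right
      · linear_combination heq
    · exact Or.inl ⟨a, b, c, x, y, z, p, q, r, hsol', Or.inr (Or.inr ⟨hyu, hzv, hmid⟩)⟩

theorem excA_boxes
    (hK : ∀ q η : ℕ, q.Prime → 0 < η → (¬ ∃ t : ℕ, t ^ q = η) →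
      ¬ Summable (fun r : ℕ => (Kum.NonRes q η).indicator (fun n : ℕ => (1 : ℝ) / n) r))
    (hK1 : ∀ η : ℤ, (¬ ∃ t : ℤ, t ^ 2 = η) → ¬ Summable (fun r : ℕ =>
      {r : ℕ | r.Prime ∧ ¬ ∃ t : ZMod r, t ^ 2 = (η : ZMod r)}.indicator
        (fun n : ℕ => (1 : ℝ) / n) r))
    (hK2 : ∀ ρ : ℕ, 0 < ρ → (¬ ∃ t : ℕ, t ^ 2 = ρ) → ¬ Summable (fun r : ℕ =>
      {r : ℕ | (r.Prime ∧ 4 ∣ r - 1) ∧ ¬ ∃ t : ZMod r, t ^ 2 = (ρ : ZMod r)}.indicator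
        (fun n : ℕ => (1 : ℝ) / n) r))
    (S : Finset ℕ) (R K : ℕ) {ε : ℝ} (hε : 0 < ε) : ∃ L : ℕ, ∀ X Y : ℕ, L ≤ X → L ≤ Y →
      ∀ a b : ℕ, a ≤ (max X Y) ^ K → b ≤ (max X Y) ^ K →
      ((ExcA S R ∩ (Set.Ioc a (a + X) ×ˢ Set.Ioc b (b + Y))).ncard : ℝ) ≤ ε * (X * Y) := by
  classical
  set T : Finset ℕ := insert 2 (S.filter Nat.Prime) with hT
  have hTp : ∀ ℓ ∈ T, ℓ.Prime := by
    intro ℓ hℓ
    rcases Finset.mem_insert.mp hℓ with rfl | h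
    · exact Nat.prime_two
    · exact (Finset.mem_filter.mp h).2
  obtain ⟨L₁, hL₁⟩ := boxes_sq hTp (Finset.mem_insert_self _ _)
    (uniformNull_not_good4S hTp hK1 hK2) K (ε := ε / 2) (by positivity)
  obtain ⟨L₂, hL₂⟩ := excM_null hK hK1 hK2 S R (ε / 2) (by positivity)
  refine ⟨max L₁ L₂, fun X Y hX hY a b ha hb => ?_⟩
  simp only [max_le_iff] at hX hY
  have k1 := hL₁ X Y hX.1 hY.1 a b ha hb
  have k2 := hL₂ X Y hX.2 hY.2 a b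
  set box : Set (ℕ × ℕ) := Set.Ioc a (a + X) ×ˢ Set.Ioc b (b + Y) with hbox
  have hbf : box.Finite := Beal.box_finite a b X Y
  have hsub : ExcA S R ∩ box ⊆ (ExcM S R ∩ box) ∪ (E0 T ∩ box) := by
    rintro w ⟨hw, hw'⟩
    rcases excA_sub S R hw with h | h
    · exact Or.inl ⟨h, hw'⟩
    · exact Or.inr ⟨h, hw'⟩
  have h1 := (Set.ncard_le_ncard hsub ((hbf.subset Set.inter_subset_right).union
    (hbf.subset Set.inter_subset_right))).trans (Set.ncard_union_le _ _)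
  have h2 : ((ExcA S R ∩ box).ncard : ℝ) ≤ (ExcM S R ∩ box).ncard + (E0 T ∩ box).ncard := by
    exact_mod_cast h1
  linarith

end Pool.Agent.H755R5
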